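import Mathlib

/-!
# The Poincaré–Miranda theorem in dimension 3

The proof is combinatorial: a discrete cup product argument.
-/

namespace Pool.Agent.Lib.MP_b2c03c_co

open Finset

/-- the 2-cochain on squares in directions 1, 2 -/
def om12 (f g : ℕ → ℕ → ℕ → ℤ) (a b c : ℕ) : ℤ :=
  (f (a+1) b c - f a b c) * (g (a+1) (b+1) c - g (a+1) b c)
    - (f a (b+1) c - f a b c) * (g (a+1) (b+1) c - g a (b+1) c)

/-- the 2-cochain on squares in directions 1, 3 -/
def om13 (f g : ℕ → ℕ → ℕ → ℤ) (a b c : ℕ) : ℤ :=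
  (f (a+1) b c - f a b c) * (g (a+1) b (c+1) - g (a+1) b c)
    - (f a b (c+1) - f a b c) * (g (a+1) b (c+1) - g a b (c+1))

/-- the 2-cochain on squares in directions 2, 3 -/
def om23 (f g : ℕ → ℕ → ℕ → ℤ) (a b c : ℕ) : ℤ :=
  (f a (b+1) c - f a b c) * (g a (b+1) (c+1) - g a (b+1) c)
    - (f a b (c+1) - f a b c) * (g a (b+1) (c+1) - g a b (c+1))

/-- the triple cup product on cubes -/
def cupW (f g h : ℕ → ℕ → ℕ → ℤ) (a b c : ℕ) : ℤ :=
  (f (a+1) b c * om23 g h (a+1) b c - f a b c * om23 g h a b c)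
    - (f a (b+1) c * om13 g h a (b+1) c - f a b c * om13 g h a b c)
    + (f a b (c+1) * om12 g h a b (c+1) - f a b c * om12 g h a b c)

/-- `f` is constant on the unit cube with lower corner `(a,b,c)` -/
def ConstOn (f : ℕ → ℕ → ℕ → ℤ) (a b c : ℕ) : Prop :=
  ∀ i j k : ℕ, i ≤ 1 → j ≤ 1 → k ≤ 1 → f (a+i) (b+j) (c+k) = f a b c

theorem ConstOn.vals {f : ℕ → ℕ → ℕ → ℤ} {a b c : ℕ} (h : ConstOn f a b c) :
    f (a+1) b c = f a b c ∧ f a (b+1) c = f a b c ∧ f a b (c+1) = f a b c ∧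
    f (a+1) (b+1) c = f a b c ∧ f (a+1) b (c+1) = f a b c ∧ f a (b+1) (c+1) = f a b c ∧
    f (a+1) (b+1) (c+1) = f a b c :=
  ⟨h 1 0 0 (by norm_num) (by norm_num) (by norm_num),
   h 0 1 0 (by norm_num) (by norm_num) (by norm_num),
   h 0 0 1 (by norm_num) (by norm_num) (by norm_num),
   h 1 1 0 (by norm_num) (by norm_num) (by norm_num),
   h 1 0 1 (by norm_num) (by norm_num) (by norm_num),
   h 0 1 1 (by norm_num) (by norm_num) (by norm_num),
   h 1 1 1 (by norm_num) (by norm_num) (by norm_num)⟩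

theorem cupW_eq_zero_left {f g h : ℕ → ℕ → ℕ → ℤ} {a b c : ℕ} (hf : ConstOn f a b c) :
    cupW f g h a b c = 0 := by
  obtain ⟨h1, h2, h3, h4, h5, h6, h7⟩ := hf.vals
  unfold cupW om12 om13 om23
  rw [h1, h2, h3]
  ring

theorem cupW_eq_zero_mid {f g h : ℕ → ℕ → ℕ → ℤ} {a b c : ℕ} (hg : ConstOn g a b c) :
    cupW f g h a b c = 0 := by
  obtain ⟨h1, h2, h3, h4, h5, h6, h7⟩ := hg.vals
  unfold cupW om12 om13 om23
  rw [h1, h2, h3, h4, h5, h6]
  ring

theorem cupW_eq_zero_right {f g h : ℕ → ℕ → ℕ → ℤ} {a b c : ℕ} (hh : ConstOn h a b c) :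
    cupW f g h a b c = 0 := by
  obtain ⟨h1, h2, h3, h4, h5, h6, h7⟩ := hh.vals
  unfold cupW om12 om13 om23
  rw [h1, h2, h3, h4, h5, h6, h7]
  ring

theorem tele1 (F : ℕ → ℕ → ℕ → ℤ) (n : ℕ) :
    ∑ a ∈ range n, ∑ b ∈ range n, ∑ c ∈ range n, (F (a+1) b c - F a b c) =
      ∑ b ∈ range n, ∑ c ∈ range n, (F n b c - F 0 b c) := by
  rw [sum_comm]
  refine sum_congr rfl fun b _ => ?_
  rw [sum_comm]
  refine sum_congr rfl fun c _ => ?_
  exact sum_range_sub (fun a => F a b c) n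

theorem tele2 (F : ℕ → ℕ → ℕ → ℤ) (n : ℕ) :
    ∑ a ∈ range n, ∑ b ∈ range n, ∑ c ∈ range n, (F a (b+1) c - F a b c) =
      ∑ a ∈ range n, ∑ c ∈ range n, (F a n c - F a 0 c) := by
  refine sum_congr rfl fun a _ => ?_
  rw [sum_comm]
  refine sum_congr rfl fun c _ => ?_
  exact sum_range_sub (fun b => F a b c) n

theorem tele3 (F : ℕ → ℕ → ℕ → ℤ) (n : ℕ) :
    ∑ a ∈ range n, ∑ b ∈ range n, ∑ c ∈ range n, (F a b (c+1) - F a b c) =
      ∑ a ∈ range n, ∑ b ∈ range n, (F a b n - F a b 0) := by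
  refine sum_congr rfl fun a _ => ?_
  refine sum_congr rfl fun b _ => ?_
  exact sum_range_sub (fun c => F a b c) n

theorem sum_cupW {n : ℕ} {f g h : ℕ → ℕ → ℕ → ℤ}
    (f0 : ∀ b c, f 0 b c = 0) (f1 : ∀ b c, f n b c = 1)
    (g0 : ∀ a c, g a 0 c = 0) (g1 : ∀ a c, g a n c = 1)
    (h0 : ∀ a b, h a b 0 = 0) (h1 : ∀ a b, h a b n = 1) :
    ∑ a ∈ range n, ∑ b ∈ range n, ∑ c ∈ range n, cupW f g h a b c = 1 := by
  unfold cupW
  simp only [sum_add_distrib, sum_sub_distrib]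
  have e1 := tele1 (fun a b c => f a b c * om23 g h a b c) n
  have e2 := tele2 (fun a b c => f a b c * om13 g h a b c) n
  have e3 := tele3 (fun a b c => f a b c * om12 g h a b c) n
  simp only [sum_sub_distrib] at e1 e2 e3
  rw [e1, e2, e3]
  -- the faces in directions 2 and 3 do not contribute
  have z2 : ∀ a c, om13 g h a n c = 0 := by
    intro a c; unfold om13; rw [g1, g1, g1]; ring
  have z2' : ∀ a c, om13 g h a 0 c = 0 := by
    intro a c; unfold om13; rw [g0, g0, g0]; ring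
  have z3 : ∀ a b, om12 g h a b n = 0 := by
    intro a b; unfold om12; rw [h1, h1, h1]; ring
  have z3' : ∀ a b, om12 g h a b 0 = 0 := by
    intro a b; unfold om12; rw [h0, h0, h0]; ring
  simp only [z2, z2', z3, z3', f0, f1, one_mul, zero_mul, mul_zero, sum_const_zero, sub_zero,
    add_zero]
  -- the face `a = n`
  have key : ∀ b c, om23 g h n b c =
      (g n (b+1) c * (h n (b+1) (c+1) - h n (b+1) c) - g n b c * (h n b (c+1) - h n b c))
      - (g n b (c+1) * (h n (b+1) (c+1) - h n b (c+1)) - g n b c * (h n (b+1) c - h n b c)) := by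
    intro b c; unfold om23; ring
  simp only [key, sum_sub_distrib]
  have t1 : ∑ b ∈ range n, ∑ c ∈ range n,
      (g n (b+1) c * (h n (b+1) (c+1) - h n (b+1) c)) -
      ∑ b ∈ range n, ∑ c ∈ range n, (g n b c * (h n b (c+1) - h n b c)) = 1 := by
    rw [← sum_sub_distrib]
    simp only [← sum_sub_distrib]
    rw [sum_comm]
    have : ∀ c ∈ range n, ∑ b ∈ range n, (g n (b+1) c * (h n (b+1) (c+1) - h n (b+1) c) -
        g n b c * (h n b (c+1) - h n b c)) = h n n (c+1) - h n n c := by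
      intro c _
      have := sum_range_sub (fun b => g n b c * (h n b (c+1) - h n b c)) n
      rw [this, g0, g1]; ring
    rw [sum_congr rfl this, sum_range_sub (fun c => h n n c) n, h0, h1]; ring
  have t2 : ∑ b ∈ range n, ∑ c ∈ range n,
      (g n b (c+1) * (h n (b+1) (c+1) - h n b (c+1))) -
      ∑ b ∈ range n, ∑ c ∈ range n, (g n b c * (h n (b+1) c - h n b c)) = 0 := by
    rw [← sum_sub_distrib]
    simp only [← sum_sub_distrib]
    refine sum_eq_zero fun b _ => ?_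
    have := sum_range_sub (fun c => g n b c * (h n (b+1) c - h n b c)) n
    rw [this, h0, h0, h1, h1]; ring
  rw [t1, t2]; ring

/-- The discrete Poincaré–Miranda lemma: some unit cube is not constant for each of the three
functions. -/
theorem exists_cube {n : ℕ} {f g h : ℕ → ℕ → ℕ → ℤ}
    (f0 : ∀ b c, f 0 b c = 0) (f1 : ∀ b c, f n b c = 1)
    (g0 : ∀ a c, g a 0 c = 0) (g1 : ∀ a c, g a n c = 1)
    (h0 : ∀ a b, h a b 0 = 0) (h1 : ∀ a b, h a b n = 1) :
    ∃ a b c, ¬ ConstOn f a b c ∧ ¬ ConstOn g a b c ∧ ¬ ConstOn h a b c := by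
  by_contra hcon
  push Not at hcon
  have hs := sum_cupW f0 f1 g0 g1 h0 h1
  have : ∑ a ∈ range n, ∑ b ∈ range n, ∑ c ∈ range n, cupW f g h a b c = 0 := by
    refine sum_eq_zero fun a _ => sum_eq_zero fun b _ => sum_eq_zero fun c _ => ?_
    by_cases hf : ConstOn f a b c
    · exact cupW_eq_zero_left hf
    by_cases hg : ConstOn g a b c
    · exact cupW_eq_zero_mid hg
    exact cupW_eq_zero_right (hcon a b c hf hg)
  omega

end Pool.Agent.Lib.MP_b2c03c_co
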