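import Mathlib
import Pool.Agent.Lib.MP_b2c03c_co.Cup

/-!
# The Poincaré–Miranda theorem in dimension 3, continuous version, and
the inclusion of the cube surface into punctured space is essential.
-/

namespace Pool.Agent.Lib.MP_b2c03c_co

/-- grid points of the unit cube (clamped) -/
noncomputable def gridPt (n : ℕ) (a b c : ℕ) : Fin 3 → ℝ :=
  ![min ((a : ℝ) / n) 1, min ((b : ℝ) / n) 1, min ((c : ℝ) / n) 1]

theorem gridPt_mem (n a b c : ℕ) : gridPt n a b c ∈ Set.Icc (0 : Fin 3 → ℝ) 1 := by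
  constructor
  · intro i
    fin_cases i <;> simp [gridPt] <;> positivity
  · intro i
    fin_cases i <;> simp [gridPt]

theorem abs_min_sub {n : ℕ} (hn : 0 < n) (a i : ℕ) (hi : i ≤ 1) :
    |min (((a + i : ℕ) : ℝ) / n) 1 - min ((a : ℝ) / n) 1| ≤ 1 / n := by
  have hn' : (0 : ℝ) < n := by exact_mod_cast hn
  refine (abs_min_sub_min_le_max _ _ _ _).trans ?_
  simp only [sub_self, abs_zero]
  apply max_le _ (by positivity)
  rw [← sub_div, abs_div, abs_of_pos hn']
  have : |((a + i : ℕ) : ℝ) - a| ≤ 1 := by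
    push_cast
    rw [add_sub_cancel_left, abs_of_nonneg (by positivity)]
    exact_mod_cast hi
  exact div_le_div_of_nonneg_right this hn'.le

theorem dist_gridPt {n : ℕ} (hn : 0 < n) (a b c i j k : ℕ) (hi : i ≤ 1) (hj : j ≤ 1)
    (hk : k ≤ 1) : dist (gridPt n (a + i) (b + j) (c + k)) (gridPt n a b c) ≤ 1 / n := by
  rw [dist_pi_le_iff (by positivity)]
  intro l
  rw [Real.dist_eq]
  fin_cases l
  · exact abs_min_sub hn a i hi
  · exact abs_min_sub hn b j hj
  · exact abs_min_sub hn c k hk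

/-- sign function -/
noncomputable def sgnFn (Φ : (Fin 3 → ℝ) → (Fin 3 → ℝ)) (n : ℕ) (l : Fin 3) (a b c : ℕ) : ℤ :=
  if 0 ≤ Φ (gridPt n a b c) l then 1 else 0

theorem abs_lt_of_not_constOn {Φ : (Fin 3 → ℝ) → (Fin 3 → ℝ)} {n : ℕ} {l : Fin 3} {a b c : ℕ}
    {δ : ℝ} (hδ : ∀ i j k : ℕ, i ≤ 1 → j ≤ 1 → k ≤ 1 →
      dist (Φ (gridPt n (a + i) (b + j) (c + k))) (Φ (gridPt n a b c)) < δ)
    (h : ¬ ConstOn (sgnFn Φ n l) a b c) : |Φ (gridPt n a b c) l| < δ := by
  unfold ConstOn at h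
  push Not at h
  obtain ⟨i, j, k, hi, hj, hk, hne⟩ := h
  have hd := (dist_le_pi_dist _ _ l).trans_lt (hδ i j k hi hj hk)
  rw [Real.dist_eq] at hd
  unfold sgnFn at hne
  by_cases h1 : 0 ≤ Φ (gridPt n (a + i) (b + j) (c + k)) l
  · by_cases h2 : 0 ≤ Φ (gridPt n a b c) l
    · simp [h1, h2] at hne
    · rw [abs_lt] at hd ⊢
      push Not at h2
      constructor <;> linarith
  · by_cases h2 : 0 ≤ Φ (gridPt n a b c) l
    · rw [abs_lt] at hd ⊢
      push Not at h1
      constructor <;> linarith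
    · simp [h1, h2] at hne

/-- The Poincaré–Miranda theorem in dimension 3 (strict version). -/
theorem poincare_miranda (Φ : (Fin 3 → ℝ) → (Fin 3 → ℝ)) (hΦ : Continuous Φ)
    (h0 : ∀ x ∈ Set.Icc (0 : Fin 3 → ℝ) 1, ∀ i, x i = 0 → Φ x i < 0)
    (h1 : ∀ x ∈ Set.Icc (0 : Fin 3 → ℝ) 1, ∀ i, x i = 1 → 0 < Φ x i) :
    ∃ x ∈ Set.Icc (0 : Fin 3 → ℝ) 1, Φ x = 0 := by
  by_contra hcon
  push Not at hcon
  have hne : (Set.Icc (0 : Fin 3 → ℝ) 1).Nonempty := ⟨0, by simp⟩
  obtain ⟨y0, hy0, hmin⟩ := isCompact_Icc.exists_isMinOn hne (f := fun y => ‖Φ y‖)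
    hΦ.norm.continuousOn
  have hδ : 0 < ‖Φ y0‖ := norm_pos_iff.mpr (hcon y0 hy0)
  have huc := isCompact_Icc.uniformContinuousOn_of_continuous (s := Set.Icc (0 : Fin 3 → ℝ) 1)
    hΦ.continuousOn
  rw [Metric.uniformContinuousOn_iff] at huc
  obtain ⟨η, hη, huc⟩ := huc _ hδ
  obtain ⟨n, hn⟩ := exists_nat_gt (1 / η)
  have hn0 : 0 < n := by
    have : (0 : ℝ) < n := lt_trans (by positivity) hn
    exact_mod_cast this
  have hn' : (0 : ℝ) < n := by exact_mod_cast hn0
  have hnη : 1 / (n : ℝ) < η := by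
    rw [div_lt_iff₀ hη] at hn
    rw [div_lt_iff₀ hn']
    linarith
  have hnn : (n : ℝ) / n = 1 := div_self hn'.ne'
  have zero : ∀ l a b c, gridPt n a b c l = 0 → sgnFn Φ n l a b c = 0 := by
    intro l a b c h
    have := h0 _ (gridPt_mem n a b c) l h
    simp [sgnFn, this]
  have one : ∀ l a b c, gridPt n a b c l = 1 → sgnFn Φ n l a b c = 1 := by
    intro l a b c h
    have := h1 _ (gridPt_mem n a b c) l h
    simp [sgnFn, this.le]
  obtain ⟨a, b, c, hA, hB, hC⟩ := exists_cube (n := n) (f := sgnFn Φ n 0) (g := sgnFn Φ n 1)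
    (h := sgnFn Φ n 2)
    (fun b c => zero 0 _ _ _ (by simp [gridPt]))
    (fun b c => one 0 _ _ _ (by simp [gridPt, hnn]))
    (fun a c => zero 1 _ _ _ (by simp [gridPt]))
    (fun a c => one 1 _ _ _ (by simp [gridPt, hnn]))
    (fun a b => zero 2 _ _ _ (by simp [gridPt]))
    (fun a b => one 2 _ _ _ (by simp [gridPt, hnn]))
  have hd : ∀ i j k : ℕ, i ≤ 1 → j ≤ 1 → k ≤ 1 →
      dist (Φ (gridPt n (a + i) (b + j) (c + k))) (Φ (gridPt n a b c)) < ‖Φ y0‖ := by
    intro i j k hi hj hk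
    exact huc _ (gridPt_mem _ _ _ _) _ (gridPt_mem _ _ _ _)
      ((dist_gridPt hn0 a b c i j k hi hj hk).trans_lt hnη)
  have hlt : ‖Φ (gridPt n a b c)‖ < ‖Φ y0‖ := by
    rw [pi_norm_lt_iff hδ]
    intro l
    rw [Real.norm_eq_abs]
    fin_cases l
    · exact abs_lt_of_not_constOn hd hA
    · exact abs_lt_of_not_constOn hd hB
    · exact abs_lt_of_not_constOn hd hC
  exact absurd (hmin (gridPt_mem n a b c)) (not_le.mpr hlt)

/-- The surface of the cube `[-1,1]³`. -/
abbrev Sph : Type := Metric.sphere (0 : Fin 3 → ℝ) 1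

/-- Punctured space. -/
abbrev Punct : Type := {v : Fin 3 → ℝ // v ≠ 0}

/-- radial projection of punctured space to the surface of the cube -/
noncomputable def radial : C(Punct, Sph) where
  toFun x := ⟨‖x.1‖⁻¹ • x.1, by
    rw [mem_sphere_zero_iff_norm, norm_smul, norm_inv, norm_norm,
      inv_mul_cancel₀ (norm_ne_zero_iff.mpr x.2)]⟩
  continuous_toFun := by
    refine Continuous.subtype_mk ?_ _
    exact Continuous.smul (Continuous.inv₀ continuous_subtype_val.norm
      (fun y => norm_ne_zero_iff.mpr y.2)) continuous_subtype_val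

/-- the time parameter of the cone construction -/
noncomputable def coneTime : C(Fin 3 → ℝ, unitInterval) where
  toFun x := ⟨max 0 (min 1 (2 - ‖x‖)),
    ⟨le_max_left _ _, max_le zero_le_one (min_le_left _ _)⟩⟩
  continuous_toFun := by
    refine Continuous.subtype_mk ?_ _
    fun_prop

theorem coneTime_one {x : Fin 3 → ℝ} (hx : ‖x‖ ≤ 1) : coneTime x = 1 := by
  ext
  simp only [coneTime, ContinuousMap.coe_mk, Set.Icc.coe_one]
  rw [min_eq_left (by linarith), max_eq_right zero_le_one]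

theorem coneTime_zero {x : Fin 3 → ℝ} (hx : ‖x‖ = 2) : coneTime x = 0 := by
  ext
  simp only [coneTime, ContinuousMap.coe_mk, Set.Icc.coe_zero, hx]
  norm_num

/-- A null-homotopic map from the surface of the cube extends to the whole space (the cube being
scaled by the factor 2). -/
theorem cone_extension {Z : Type} [TopologicalSpace Z] (f : C(Sph, Z)) (hf : f.Nullhomotopic) :
    ∃ F : C(Fin 3 → ℝ, Z), ∀ x : Sph, F ((2 : ℝ) • x.1) = f x := by
  obtain ⟨z0, ⟨K⟩⟩ := hf
  classical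
  let G : C(Punct, Z) := K.toContinuousMap.comp
    ((coneTime.comp ⟨Subtype.val, continuous_subtype_val⟩).prodMk radial)
  have hG : ∀ y : Punct, G y = K (coneTime y.1, radial y) := fun y => rfl
  let g : (Fin 3 → ℝ) → Z := fun x => if h : x = 0 then z0 else G ⟨x, h⟩
  have hg1 : ∀ x : Fin 3 → ℝ, ‖x‖ ≤ 1 → g x = z0 := by
    intro x hx
    by_cases h : x = 0
    · simp [g, h]
    · simp only [g, h, dif_neg, not_false_eq_true]
      rw [hG, coneTime_one hx, K.apply_one]
      rfl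
  have hgc : Continuous g := by
    rw [continuous_iff_continuousAt]
    intro x
    by_cases h : x = 0
    · subst h
      have : g =ᶠ[nhds 0] fun _ => z0 := by
        filter_upwards [Metric.ball_mem_nhds (0 : Fin 3 → ℝ) one_pos] with y hy
        exact hg1 y (by simpa using (mem_ball_zero_iff.mp hy).le)
      exact continuousAt_const.congr this.symm
    · have hopen : IsOpen {x : Fin 3 → ℝ | x ≠ 0} := isOpen_ne
      have : ContinuousOn g {x : Fin 3 → ℝ | x ≠ 0} := by
        rw [continuousOn_iff_continuous_domRestrict]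
        have heq : Set.domRestrict {x : Fin 3 → ℝ | x ≠ 0} g = fun y => G y := by
          ext y
          exact dif_neg y.2
        rw [heq]
        exact G.continuous
      exact this.continuousAt (hopen.mem_nhds h)
  refine ⟨⟨g, hgc⟩, fun x => ?_⟩
  have hx : ‖x.1‖ = 1 := mem_sphere_zero_iff_norm.mp x.2
  have hx0 : x.1 ≠ 0 := by
    intro h
    rw [h, norm_zero] at hx
    norm_num at hx
  have h2 : (2 : ℝ) • x.1 ≠ 0 := smul_ne_zero two_ne_zero hx0
  have hn2 : ‖(2 : ℝ) • x.1‖ = 2 := by rw [norm_smul, hx]; norm_num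
  have e1 : g ((2 : ℝ) • x.1) = G ⟨_, h2⟩ := dif_neg h2
  change g ((2 : ℝ) • x.1) = f x
  rw [e1, hG, coneTime_zero hn2, K.apply_zero]
  congr 1
  ext1
  change ‖(2 : ℝ) • x.1‖⁻¹ • ((2 : ℝ) • x.1) = x.1
  rw [hn2, smul_smul]
  norm_num

/-- A map from the surface of the cube to punctured space satisfying the sign conditions of the
Poincaré–Miranda theorem is not null-homotopic. -/
theorem not_nullhomotopic (f : C(Sph, Punct))
    (h1 : ∀ (x : Sph) (i : Fin 3), x.1 i = 1 → 0 < (f x).1 i)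
    (h0 : ∀ (x : Sph) (i : Fin 3), x.1 i = -1 → (f x).1 i < 0) :
    ¬ f.Nullhomotopic := by
  intro hf
  obtain ⟨F, hF⟩ := cone_extension f hf
  have hmem : ∀ y ∈ Set.Icc (0 : Fin 3 → ℝ) 1, ∀ i, (y i = 0 ∨ y i = 1) →
      (2 : ℝ) • y - 1 ∈ Metric.sphere (0 : Fin 3 → ℝ) 1 := by
    intro y hy i hi
    rw [mem_sphere_zero_iff_norm]
    apply le_antisymm
    · rw [pi_norm_le_iff_of_nonneg zero_le_one]
      intro j
      rw [Real.norm_eq_abs, abs_le]
      have a1 := hy.1 j
      have a2 := hy.2 j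
      simp only [Pi.zero_apply, Pi.one_apply] at a1 a2
      simp only [Pi.sub_apply, Pi.smul_apply, Pi.one_apply, smul_eq_mul]
      constructor <;> linarith
    · refine le_trans ?_ (norm_le_pi_norm _ i)
      rw [Real.norm_eq_abs]
      simp only [Pi.sub_apply, Pi.smul_apply, Pi.one_apply, smul_eq_mul]
      rcases hi with hi | hi <;> rw [hi] <;> norm_num
  let Φ : (Fin 3 → ℝ) → (Fin 3 → ℝ) := fun y => (F ((2 : ℝ) • ((2 : ℝ) • y - 1))).1
  have hΦ : Continuous Φ := by
    refine continuous_subtype_val.comp (F.continuous.comp ?_)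
    fun_prop
  obtain ⟨x, _, hx⟩ := poincare_miranda Φ hΦ
    (by
      intro y hy i hi
      have := hF ⟨_, hmem y hy i (Or.inl hi)⟩
      simp only [Φ]
      rw [this]
      apply h0
      simp only [Pi.sub_apply, Pi.smul_apply, Pi.one_apply, smul_eq_mul, hi]
      norm_num)
    (by
      intro y hy i hi
      have := hF ⟨_, hmem y hy i (Or.inr hi)⟩
      simp only [Φ]
      rw [this]
      apply h1
      simp only [Pi.sub_apply, Pi.smul_apply, Pi.one_apply, smul_eq_mul, hi]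
      norm_num)
  exact (F ((2 : ℝ) • ((2 : ℝ) • x - 1))).2 hx

end Pool.Agent.Lib.MP_b2c03c_co
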