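import Mathlib

/-!
# Definitions for MP_b2c03c_co: box complexes of adjoint fractional powers of graphs
-/

namespace Pool.Agent.Lib.MP_b2c03c_co

/-- A graph on the vertex set `V`: a symmetric edge relation; loops are allowed. -/
structure LoopGraph (V : Type) where
  /-- the edge relation -/
  Adj : V → V → Prop
  /-- the edge relation is symmetric -/
  symm : ∀ u v, Adj u v → Adj v u

namespace LoopGraph

variable {V : Type}

/-- `A ⋈ B`: every vertex of `A` is adjacent to every vertex of `B`. -/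
def Join (G : LoopGraph V) (A B : Set V) : Prop :=
  ∀ a ∈ A, ∀ b ∈ B, G.Adj a b

/-- `CN(A)`, the set of common neighbours of the vertices in `A`. -/
def CN (G : LoopGraph V) (A : Set V) : Set V :=
  {w | ∀ v ∈ A, G.Adj v w}

/-- The graph obtained from `G` by deleting its isolated vertices. -/
def deleteIsolated (G : LoopGraph V) : LoopGraph {v : V // ∃ w, G.Adj v w} where
  Adj u v := G.Adj u.1 v.1
  symm u v h := G.symm u.1 v.1 h

/-- The simplices of the box complex (for a graph `G` without isolated vertices).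
Vertices of the complex are the pairs `(v, false)`, which stands for `(v, ∘)`, and
`(v, true)`, which stands for `(v, •)`.  A set `σ = A × {∘} ∪ B × {•}` is a simplex
if `A ⋈ B`, `CN(A) ≠ ∅` and `CN(B) ≠ ∅`. -/
def IsBoxSimplex (G : LoopGraph V) (σ : Set (V × Bool)) : Prop :=
  G.Join {v | (v, false) ∈ σ} {v | (v, true) ∈ σ} ∧
    (G.CN {v | (v, false) ∈ σ}).Nonempty ∧ (G.CN {v | (v, true) ∈ σ}).Nonempty

/-- The geometric realisation `|B(G)|` of the box complex of a finite graph `G`: delete the
isolated vertices of `G` and take all families of nonnegative barycentric coordinates with sum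
`1` whose support is a simplex. -/
def BoxSpace (G : LoopGraph V) : Type :=
  {x : {v : V // ∃ w, G.Adj v w} × Bool → ℝ //
    (∀ p, 0 ≤ x p) ∧ ∑ᶠ p, x p = 1 ∧ G.deleteIsolated.IsBoxSimplex {p | x p ≠ 0}}

/-- `|B(G)|` carries the subspace topology of the product topology on families of real numbers
indexed by the (finite) set of vertices of the box complex. -/
instance boxTopology (G : LoopGraph V) : TopologicalSpace G.BoxSpace :=
  instTopologicalSpaceSubtype

/-- The action of the generator of `ℤ₂` on `|B(G)|`, exchanging `(v, ∘)` and `(v, •)`. -/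
def boxSwap (G : LoopGraph V) (x : G.BoxSpace) : G.BoxSpace :=
  ⟨fun p => x.1 (p.1, !p.2), fun p => x.2.1 _,
    (finsum_comp_equiv ((Equiv.refl _).prodCongr Equiv.boolNot)).trans x.2.2.1, by
    obtain ⟨h1, h2, h3⟩ := x.2.2.2
    refine ⟨?_, ?_, ?_⟩
    · intro a ha b hb
      exact G.deleteIsolated.symm _ _ (h1 b (by simpa using hb) a (by simpa using ha))
    · simpa using h3
    · simpa using h2⟩

/-- `Γ_k(G)`, the `k`-th power: `u` and `v` are adjacent iff `G` has a walk of length exactly `k`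
from `u` to `v`. -/
def Gam (k : ℕ) (G : LoopGraph V) : LoopGraph V where
  Adj u v := ∃ w : Fin (k + 1) → V, w 0 = u ∧ w (Fin.last k) = v ∧
    ∀ i : Fin k, G.Adj (w i.castSucc) (w i.succ)
  symm u v := by
    rintro ⟨w, h0, h1, h2⟩
    refine ⟨fun i => w i.rev, by simpa using h1, by simpa using h0, fun i => ?_⟩
    have := h2 i.rev
    rw [← Fin.rev_succ, ← Fin.rev_castSucc] at this
    exact G.symm _ _ this

/-- The vertices of `Ω_k(G)` for `k = 2m+1`: the tuples `(A_0, …, A_m)` of subsets of `V(G)` with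
`|A_0| = 1` and `A_{i-1} ⋈ A_i` for `1 ≤ i ≤ m`. -/
def OmVertex (m : ℕ) (G : LoopGraph V) : Type :=
  {A : Fin (m + 1) → Set V // (A 0).ncard = 1 ∧ ∀ i : Fin m, G.Join (A i.castSucc) (A i.succ)}

/-- `Ω_k(G)` for `k = 2m+1`: the tuples `A`, `B` are adjacent iff `A_{i-1} ⊆ B_i` and
`B_{i-1} ⊆ A_i` for `1 ≤ i ≤ m`, and `A_m ⋈ B_m`. -/
def Om (m : ℕ) (G : LoopGraph V) : LoopGraph (OmVertex m G) where
  Adj A B := (∀ i : Fin m, A.1 i.castSucc ⊆ B.1 i.succ ∧ B.1 i.castSucc ⊆ A.1 i.succ) ∧
    G.Join (A.1 (Fin.last m)) (B.1 (Fin.last m))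
  symm _ _ h := ⟨fun i => (h.1 i).symm, fun b hb a ha => G.symm _ _ (h.2 a ha b hb)⟩

end LoopGraph

/-- Two spaces with involutions `σ` and `τ` are `ℤ₂`-homotopy equivalent: there are equivariant
maps each way whose composites are equivariantly homotopic to the identities. -/
def Z2HomotopyEquivalent {X Y : Type} [TopologicalSpace X] [TopologicalSpace Y]
    (σ : X → X) (τ : Y → Y) : Prop :=
  ∃ (f : C(X, Y)) (g : C(Y, X)), (∀ x, f (σ x) = τ (f x)) ∧ (∀ y, g (τ y) = σ (g y)) ∧
    (∃ F : ContinuousMap.Homotopy (g.comp f) (ContinuousMap.id X),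
      ∀ t x, F (t, σ x) = σ (F (t, x))) ∧
    (∃ F : ContinuousMap.Homotopy (f.comp g) (ContinuousMap.id Y),
      ∀ t y, F (t, τ y) = τ (F (t, y)))

end Pool.Agent.Lib.MP_b2c03c_co
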