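import Mathlib
import Pool.Agent.Lib.MP_b2c03c_co.Defs

/-!
# The graph `K_{10,10}` minus a Hamiltonian cycle and some vertices of `Γ_5(Ω_7(G))`
-/

namespace Pool.Agent.Lib.MP_b2c03c_co

open LoopGraph

/-- the differences of adjacent vertices -/
def SS : Finset (ZMod 20) := {3, 5, 7, 9, 11, 13, 15, 17}

/-- `K_{10,10}` minus a Hamiltonian cycle: the circulant graph on `ℤ/20` in which `p` and `q` are
adjacent iff `q - p` is odd and different from `±1`. -/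
def UU : LoopGraph (ZMod 20) where
  Adj p q := q - p ∈ SS
  symm := by decide

theorem UU_loopless (v : ZMod 20) : ¬ UU.Adj v v := by
  change v - v ∉ SS
  rw [sub_self]
  decide

/-- conditions on a tuple of finite sets -/
def Valid (F : Fin 4 → Finset (ZMod 20)) : Prop :=
  (F 0).card = 1 ∧ ∀ i : Fin 3, ∀ a ∈ F i.castSucc, ∀ b ∈ F i.succ, b - a ∈ SS

instance (F : Fin 4 → Finset (ZMod 20)) : Decidable (Valid F) := by
  unfold Valid; infer_instance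

/-- adjacency of tuples of finite sets -/
def Nb (F F' : Fin 4 → Finset (ZMod 20)) : Prop :=
  (∀ i : Fin 3, F i.castSucc ⊆ F' i.succ ∧ F' i.castSucc ⊆ F i.succ) ∧
    ∀ a ∈ F 3, ∀ b ∈ F' 3, b - a ∈ SS

instance (F F' : Fin 4 → Finset (ZMod 20)) : Decidable (Nb F F') := by
  unfold Nb; infer_instance

/-- translate of a tuple, as a vertex of `Ω_7` -/
def tr (p : ZMod 20) (F : Fin 4 → Finset (ZMod 20)) (h : Valid F) : UU.OmVertex 3 :=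
  ⟨fun i => {x | x - p ∈ F i}, by
    constructor
    · have : {x : ZMod 20 | x - p ∈ F 0} = (fun y => y + p) '' (F 0 : Set (ZMod 20)) := by
        ext x
        constructor
        · intro hx
          exact ⟨x - p, hx, by ring⟩
        · rintro ⟨y, hy, rfl⟩
          have : y + p - p = y := by ring
          simpa [this] using hy
      change ({x : ZMod 20 | x - p ∈ F 0}).ncard = 1
      rw [this, Set.ncard_image_of_injective _ (add_left_injective p), Set.ncard_coe_finset]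
      exact h.1
    · intro i a ha b hb
      have := h.2 i _ ha _ hb
      change b - a ∈ SS
      have e : b - p - (a - p) = b - a := by ring
      rwa [e] at this⟩

theorem tr_adj (p : ZMod 20) {F F' : Fin 4 → Finset (ZMod 20)} (h : Valid F) (h' : Valid F')
    (hn : Nb F F') : (UU.Om 3).Adj (tr p F h) (tr p F' h') := by
  refine ⟨fun i => ⟨fun x hx => (hn.1 i).1 hx, fun x hx => (hn.1 i).2 hx⟩, ?_⟩
  intro a ha b hb
  have := hn.2 _ ha _ hb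
  change b - a ∈ SS
  have e : b - p - (a - p) = b - a := by ring
  rwa [e] at this

/-- the tuple `X^(0)` -/
def F0 : Fin 4 → Finset (ZMod 20) := ![{0}, {9, 11}, {18, 0, 2}, {7, 9, 11, 13}]

theorem F0_valid : Valid F0 := by decide +kernel

/-- the vertex `X^(p)` -/
def Xv (p : ZMod 20) : UU.OmVertex 3 := tr p F0 F0_valid

/-- the target graph -/
abbrev HH : LoopGraph (UU.OmVertex 3) := (UU.Om 3).Gam 5

/-- a walk of length 5 from `X^(p)` to `X^(p+d)` given by a table -/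
theorem adj_of_table (p d : ZMod 20) (F : Fin 6 → Fin 4 → Finset (ZMod 20))
    (hv : ∀ j, Valid (F j)) (hn : ∀ j : Fin 5, Nb (F j.castSucc) (F j.succ))
    (h0 : F 0 = F0) (h5 : ∀ i y, y ∈ F 5 i ↔ y - d ∈ F0 i) : HH.Adj (Xv p) (Xv (p + d)) := by
  refine ⟨fun j => tr p (F j) (hv j), ?_, ?_, fun j => tr_adj p _ _ (hn j)⟩
  · apply Subtype.ext
    change (fun i => {x | x - p ∈ F 0 i}) = (fun i => {x | x - p ∈ F0 i})
    rw [h0]
  · apply Subtype.ext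
    change (fun i => {x | x - p ∈ F 5 i}) = (fun i => {x | x - (p + d) ∈ F0 i})
    funext i
    ext x
    change x - p ∈ F 5 i ↔ x - (p + d) ∈ F0 i
    rw [h5, sub_sub]

/-- table for the difference 5 -/
def tab5 : Fin 6 → Fin 4 → Finset (ZMod 20) :=
  ![![{0}, {9, 11}, {18, 0, 2}, {7, 9, 11, 13}],
    ![{9}, {0, 18}, {7, 9, 11}, {0, 2, 16, 18}],
    ![{18}, {7, 9}, {0, 16, 18}, {5, 7, 9, 11}],
    ![{7}, {16, 18}, {5, 7, 9}, {0, 14, 16, 18}],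
    ![{16}, {5, 7}, {14, 16, 18}, {3, 5, 7, 9}],
    ![{5}, {14, 16}, {3, 5, 7}, {12, 14, 16, 18}]]

/-- table for the difference 9 -/
def tab9 : Fin 6 → Fin 4 → Finset (ZMod 20) :=
  ![![{0}, {9, 11}, {18, 0, 2}, {7, 9, 11, 13}],
    ![{9}, {0}, {9, 11}, {0, 2, 18}],
    ![{0}, {9}, {0}, {9, 11}],
    ![{9}, {0}, {9}, {0, 18}],
    ![{0}, {9}, {0, 18}, {7, 9, 11}],
    ![{9}, {0, 18}, {7, 9, 11}, {0, 2, 16, 18}]]

theorem adj5 (p : ZMod 20) : HH.Adj (Xv p) (Xv (p + 5)) :=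
  adj_of_table p 5 tab5 (by decide +kernel) (by decide +kernel) rfl (by decide +kernel)

theorem adj9 (p : ZMod 20) : HH.Adj (Xv p) (Xv (p + 9)) :=
  adj_of_table p 9 tab9 (by decide +kernel) (by decide +kernel) rfl (by decide +kernel)

/-- necessary conditions for walks of length 5 -/
theorem walk_cond {V : Type} {G : LoopGraph V} {X Y : G.OmVertex 3}
    (h : ((G.Om 3).Gam 5).Adj X Y) :
    G.Join (X.1 0) (Y.1 2) ∧ G.Join (X.1 1) (Y.1 1) ∧ G.Join (X.1 2) (Y.1 0) ∧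
    X.1 0 ⊆ X.1 2 ∧ X.1 1 ⊆ X.1 3 ∧ (∃ z ∈ X.1 1, ∀ y ∈ Y.1 3, G.Adj z y) ∧
    (∃ z ∈ X.1 2, z ∈ Y.1 3) ∧ (∃ z ∈ X.1 3, z ∈ Y.1 2) ∧
    (∃ z ∈ Y.1 1, ∀ x ∈ X.1 3, G.Adj z x) := by
  obtain ⟨w, h0, h5, hw⟩ := h
  subst h0
  have h5' : w 5 = Y := h5
  subst h5'
  -- the four kinds of information
  have a01 : (w 0).1 0 ⊆ (w 1).1 1 := ((hw 0).1 0).1
  have a12 : (w 0).1 1 ⊆ (w 1).1 2 := ((hw 0).1 1).1
  have a23 : (w 0).1 2 ⊆ (w 1).1 3 := ((hw 0).1 2).1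
  have b01 : (w 1).1 0 ⊆ (w 0).1 1 := ((hw 0).1 0).2
  have b12 : (w 1).1 1 ⊆ (w 0).1 2 := ((hw 0).1 1).2
  have b23 : (w 1).1 2 ⊆ (w 0).1 3 := ((hw 0).1 2).2
  have j0 : G.Join ((w 0).1 3) ((w 1).1 3) := (hw 0).2
  have c01 : (w 1).1 0 ⊆ (w 2).1 1 := ((hw 1).1 0).1
  have c12 : (w 1).1 1 ⊆ (w 2).1 2 := ((hw 1).1 1).1
  have c23 : (w 1).1 2 ⊆ (w 2).1 3 := ((hw 1).1 2).1
  have d01 : (w 2).1 0 ⊆ (w 1).1 1 := ((hw 1).1 0).2
  have d12 : (w 2).1 1 ⊆ (w 1).1 2 := ((hw 1).1 1).2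
  have d23 : (w 2).1 2 ⊆ (w 1).1 3 := ((hw 1).1 2).2
  have j1 : G.Join ((w 1).1 3) ((w 2).1 3) := (hw 1).2
  have e01 : (w 2).1 0 ⊆ (w 3).1 1 := ((hw 2).1 0).1
  have e12 : (w 2).1 1 ⊆ (w 3).1 2 := ((hw 2).1 1).1
  have e23 : (w 2).1 2 ⊆ (w 3).1 3 := ((hw 2).1 2).1
  have f01 : (w 3).1 0 ⊆ (w 2).1 1 := ((hw 2).1 0).2
  have f12 : (w 3).1 1 ⊆ (w 2).1 2 := ((hw 2).1 1).2
  have f23 : (w 3).1 2 ⊆ (w 2).1 3 := ((hw 2).1 2).2
  have j2 : G.Join ((w 2).1 3) ((w 3).1 3) := (hw 2).2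
  have g01 : (w 3).1 0 ⊆ (w 4).1 1 := ((hw 3).1 0).1
  have g12 : (w 3).1 1 ⊆ (w 4).1 2 := ((hw 3).1 1).1
  have g23 : (w 3).1 2 ⊆ (w 4).1 3 := ((hw 3).1 2).1
  have k01 : (w 4).1 0 ⊆ (w 3).1 1 := ((hw 3).1 0).2
  have k12 : (w 4).1 1 ⊆ (w 3).1 2 := ((hw 3).1 1).2
  have k23 : (w 4).1 2 ⊆ (w 3).1 3 := ((hw 3).1 2).2
  have j3 : G.Join ((w 3).1 3) ((w 4).1 3) := (hw 3).2
  have l01 : (w 4).1 0 ⊆ (w 5).1 1 := ((hw 4).1 0).1
  have l12 : (w 4).1 1 ⊆ (w 5).1 2 := ((hw 4).1 1).1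
  have l23 : (w 4).1 2 ⊆ (w 5).1 3 := ((hw 4).1 2).1
  have m01 : (w 5).1 0 ⊆ (w 4).1 1 := ((hw 4).1 0).2
  have m12 : (w 5).1 1 ⊆ (w 4).1 2 := ((hw 4).1 1).2
  have m23 : (w 5).1 2 ⊆ (w 4).1 3 := ((hw 4).1 2).2
  have j4 : G.Join ((w 4).1 3) ((w 5).1 3) := (hw 4).2
  have ne : ∀ j, ((w j).1 0).Nonempty := by
    intro j
    apply Set.nonempty_of_ncard_ne_zero
    rw [(w j).2.1]
    exact one_ne_zero
  refine ⟨?_, ?_, ?_, ?_, ?_, ?_, ?_, ?_, ?_⟩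
  · intro a ha b hb
    exact j3 a (e23 (c12 (a01 ha))) b (m23 hb)
  · intro a ha b hb
    exact j2 a (c23 (a12 ha)) b (k23 (m12 hb))
  · intro a ha b hb
    exact j1 a (a23 ha) b (f23 (k12 (m01 hb)))
  · exact fun a ha => b12 (a01 ha)
  · exact fun a ha => b23 (a12 ha)
  · obtain ⟨z, hz⟩ := ne 1
    exact ⟨z, b01 hz, fun y hy => j4 z (g23 (e12 (c01 hz))) y hy⟩
  · obtain ⟨z, hz⟩ := ne 2
    exact ⟨z, b12 (d01 hz), l23 (g12 (e01 hz))⟩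
  · obtain ⟨z, hz⟩ := ne 3
    exact ⟨z, b23 (d12 (f01 hz)), l12 (g01 hz)⟩
  · obtain ⟨z, hz⟩ := ne 4
    exact ⟨z, l01 hz, fun x hx => G.symm _ _ (j0 x hx z (d23 (f12 (k01 hz))))⟩

end Pool.Agent.Lib.MP_b2c03c_co
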