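import Mathlib
import Pool.Agent.Lib.MP_b2c03c_co.Defs

/-!
# Straight-line homotopies in box complexes
-/

namespace Pool.Agent.Lib.MP_b2c03c_co

open LoopGraph

variable {W : Type}

theorem LoopGraph.IsBoxSimplex.mono {G : LoopGraph W} {σ τ : Set (W × Bool)}
    (h : G.IsBoxSimplex τ) (hs : σ ⊆ τ) : G.IsBoxSimplex σ := by
  obtain ⟨h1, ⟨a, ha⟩, ⟨b, hb⟩⟩ := h
  exact ⟨fun u hu v hv => h1 u (hs hu) v (hs hv), ⟨a, fun v hv => ha v (hs hv)⟩,
    ⟨b, fun v hv => hb v (hs hv)⟩⟩

/-- the realisation of the box complex of a graph without isolated vertices -/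
def RSpace (G : LoopGraph W) : Set (W × Bool → ℝ) :=
  {x | (∀ p, 0 ≤ x p) ∧ ∑ᶠ p, x p = 1 ∧ G.IsBoxSimplex {p | x p ≠ 0}}

variable [Fintype W]

/-- unnormalised points of the realisation -/
def IsCone (G : LoopGraph W) (y : W × Bool → ℝ) : Prop :=
  (∀ p, 0 ≤ y p) ∧ 0 < ∑ p, y p ∧ G.IsBoxSimplex {p | y p ≠ 0}

theorem nrm_mem {G : LoopGraph W} {y : W × Bool → ℝ} (hy : IsCone G y) :
    (fun p => y p / ∑ q, y q) ∈ RSpace G := by
  obtain ⟨h1, h2, h3⟩ := hy
  refine ⟨fun p => div_nonneg (h1 p) h2.le, ?_, ?_⟩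
  · rw [finsum_eq_sum_of_fintype, ← Finset.sum_div, div_self h2.ne']
  · refine h3.mono ?_
    intro p hp h
    apply hp
    change y p / _ = 0
    have : y p = 0 := h
    rw [this, zero_div]

/-- continuous maps to the realisation given by unnormalised coordinates -/
noncomputable def mkMap {G : LoopGraph W} {T : Type} [TopologicalSpace T] (y : T → W × Bool → ℝ)
    (hc : Continuous y) (hy : ∀ t, IsCone G (y t)) : C(T, RSpace G) where
  toFun t := ⟨fun p => y t p / ∑ q, y t q, nrm_mem (hy t)⟩
  continuous_toFun := by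
    refine Continuous.subtype_mk ?_ _
    refine continuous_pi fun p => ?_
    refine Continuous.div ?_ ?_ fun t => (hy t).2.1.ne'
    · exact (continuous_apply p).comp hc
    · exact continuous_finsetSum _ fun q _ => (continuous_apply q).comp hc

theorem RSpace.isCone {G : LoopGraph W} (x : RSpace G) : IsCone G x.1 := by
  refine ⟨x.2.1, ?_, x.2.2.2⟩
  rw [← finsum_eq_sum_of_fintype, x.2.2.1]
  exact one_pos

theorem eq_mkMap {G : LoopGraph W} {T : Type} [TopologicalSpace T] (f : C(T, RSpace G)) :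
    f = mkMap (fun t => (f t).1) (continuous_subtype_val.comp f.continuous)
      (fun t => RSpace.isCone (f t)) := by
  ext t p
  simp only [mkMap, ContinuousMap.coe_mk]
  rw [← finsum_eq_sum_of_fintype, (f t).2.2.1, div_one]

/-- Two maps whose coordinates have supports in a common simplex are homotopic. -/
theorem mkMap_homotopic {G : LoopGraph W} {T : Type} [TopologicalSpace T]
    (y z : T → W × Bool → ℝ) (hyc : Continuous y) (hzc : Continuous z)
    (hy : ∀ t, IsCone G (y t)) (hz : ∀ t, IsCone G (z t))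
    (h : ∀ t, G.IsBoxSimplex {p | y t p ≠ 0 ∨ z t p ≠ 0}) :
    (mkMap y hyc hy).Homotopic (mkMap z hzc hz) := by
  let K : unitInterval × T → W × Bool → ℝ := fun q p =>
    (1 - (q.1 : ℝ)) * y q.2 p + (q.1 : ℝ) * z q.2 p
  have hKc : Continuous K := by
    refine continuous_pi fun p => ?_
    have h1 : Continuous fun q : unitInterval × T => y q.2 p :=
      (continuous_apply p).comp (hyc.comp continuous_snd)
    have h2 : Continuous fun q : unitInterval × T => z q.2 p :=
      (continuous_apply p).comp (hzc.comp continuous_snd)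
    have h3 : Continuous fun q : unitInterval × T => (q.1 : ℝ) :=
      continuous_subtype_val.comp continuous_fst
    exact ((continuous_const.sub h3).mul h1).add (h3.mul h2)
  have hK : ∀ q, IsCone G (K q) := by
    rintro ⟨τ, t⟩
    have τ0 : (0 : ℝ) ≤ τ := τ.2.1
    have τ1 : (0 : ℝ) ≤ 1 - τ := by linarith [τ.2.2]
    refine ⟨fun p => ?_, ?_, ?_⟩
    · exact add_nonneg (mul_nonneg τ1 ((hy t).1 p)) (mul_nonneg τ0 ((hz t).1 p))
    · have : ∑ p, K (τ, t) p = (1 - (τ : ℝ)) * ∑ p, y t p + (τ : ℝ) * ∑ p, z t p := by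
        simp only [K, Finset.sum_add_distrib, Finset.mul_sum]
      rw [this]
      rcases eq_or_lt_of_le τ0 with h0 | h0
      · rw [← h0]
        simpa using (hy t).2.1
      · have := mul_pos h0 (hz t).2.1
        have := mul_nonneg τ1 (hy t).2.1.le
        linarith
    · refine (h t).mono ?_
      intro p hp
      by_contra hcon
      simp only [Set.mem_ofPred_eq, not_or, not_not] at hcon
      apply hp
      simp only [K, hcon.1, hcon.2]
      ring
  refine ⟨⟨mkMap K hKc hK, fun t => ?_, fun t => ?_⟩⟩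
  · ext p
    simp [mkMap, K]
  · ext p
    simp [mkMap, K]

end Pool.Agent.Lib.MP_b2c03c_co
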