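import Mathlib
import Pool.Agent.Lib.MP_b2c03c_co.Space

/-!
# Pushing the box complex to its first half
-/

namespace Pool.Agent.Lib.MP_b2c03c_co

open LoopGraph

variable {W : Type} [Fintype W]

open Classical in
/-- the weight given to the vertex `X` by the coordinates `t` on the second half -/
noncomputable def cc (G : LoopGraph W) (ε : ℝ) (t : W → ℝ) (X : W) : ℝ :=
  (∏ Y ∈ Finset.univ.filter (fun Y => ¬ G.Adj X Y), max (ε - t Y) 0) * ∑ Y, max (t Y - ε) 0

theorem cc_nonneg (G : LoopGraph W) (ε : ℝ) (t : W → ℝ) (X : W) : 0 ≤ cc G ε t X := by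
  classical
  unfold cc
  exact mul_nonneg (Finset.prod_nonneg fun _ _ => le_max_right _ _)
    (Finset.sum_nonneg fun _ _ => le_max_right _ _)

theorem adj_of_cc_ne {G : LoopGraph W} {ε : ℝ} {t : W → ℝ} {X : W} (h : cc G ε t X ≠ 0)
    {Y : W} (hY : ε ≤ t Y) : G.Adj X Y := by
  classical
  by_contra hn
  apply h
  unfold cc
  rw [Finset.prod_eq_zero (i := Y) (by simp [hn]) (max_eq_right (by linarith)), zero_mul]

theorem exists_of_cc_ne {G : LoopGraph W} {ε : ℝ} {t : W → ℝ} {X : W} (h : cc G ε t X ≠ 0) :
    ∃ Y, ε < t Y := by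
  classical
  by_contra hn
  push Not at hn
  apply h
  unfold cc
  rw [Finset.sum_eq_zero (fun Y _ => max_eq_right (by linarith [hn Y])), mul_zero]

theorem cc_pos {G : LoopGraph W} {ε : ℝ} (hε : 0 < ε) {t : W → ℝ} {X : W}
    (h : ∀ Y, t Y ≠ 0 → G.Adj X Y) {Y : W} (hY : ε < t Y) : 0 < cc G ε t X := by
  classical
  unfold cc
  refine mul_pos (Finset.prod_pos fun Z hZ => ?_) ?_
  · simp only [Finset.mem_filter, Finset.mem_univ, true_and] at hZ
    have : t Z = 0 := by
      by_contra hne
      exact hZ (h Z hne)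
    rw [this]
    exact lt_max_of_lt_left (by linarith)
  · refine Finset.sum_pos' (fun _ _ => le_max_right _ _) ⟨Y, Finset.mem_univ _, ?_⟩
    exact lt_max_of_lt_left (by linarith)

theorem continuous_cc (G : LoopGraph W) (ε : ℝ) (X : W) : Continuous fun t => cc G ε t X := by
  classical
  unfold cc
  refine Continuous.mul ?_ ?_
  · exact continuous_finsetProd _ fun Y _ =>
      (continuous_const.sub (continuous_apply Y)).max continuous_const
  · exact continuous_finsetSum _ fun Y _ =>
      ((continuous_apply Y).sub continuous_const).max continuous_const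

/-- the threshold -/
noncomputable def eps (W : Type) [Fintype W] : ℝ := 1 / (Fintype.card W + 1)

theorem eps_pos : 0 < eps W := by
  unfold eps
  positivity

theorem card_mul_eps : Fintype.card W * eps W < 1 := by
  unfold eps
  rw [mul_one_div, div_lt_one (by positivity)]
  linarith

/-- the first stage: truncate the second half -/
noncomputable def st1 (x : W × Bool → ℝ) : W × Bool → ℝ :=
  fun p => if p.2 = true then max (x p - eps W) 0 else x p

/-- the second stage: only the first half is left -/
noncomputable def st2 (G : LoopGraph W) (x : W × Bool → ℝ) : W × Bool → ℝ :=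
  fun p => if p.2 = true then 0 else x p + cc G (eps W) (fun Y => x (Y, true)) p.1

@[simp] theorem st1_true (x : W × Bool → ℝ) (Y : W) :
    st1 x (Y, true) = max (x (Y, true) - eps W) 0 := by simp [st1]

@[simp] theorem st1_false (x : W × Bool → ℝ) (Y : W) : st1 x (Y, false) = x (Y, false) := by
  simp [st1]

@[simp] theorem st2_true (G : LoopGraph W) (x : W × Bool → ℝ) (Y : W) :
    st2 G x (Y, true) = 0 := by simp [st2]

@[simp] theorem st2_false (G : LoopGraph W) (x : W × Bool → ℝ) (Y : W) :
    st2 G x (Y, false) = x (Y, false) + cc G (eps W) (fun Y => x (Y, true)) Y := by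
  simp [st2]

theorem continuous_st1 : Continuous (st1 (W := W)) := by
  refine continuous_pi fun p => ?_
  obtain ⟨X, b⟩ := p
  cases b
  · simp only [st1_false]
    exact continuous_apply _
  · simp only [st1_true]
    exact ((continuous_apply _).sub continuous_const).max continuous_const

theorem continuous_st2 (G : LoopGraph W) : Continuous (st2 G) := by
  refine continuous_pi fun p => ?_
  obtain ⟨X, b⟩ := p
  cases b
  · simp only [st2_false]
    refine (continuous_apply _).add ((continuous_cc G (eps W) X).comp ?_)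
    exact continuous_pi fun Y => continuous_apply _
  · simp only [st2_true]
    exact continuous_const

/-- If the first half is absent then the second half has a large coordinate. -/
theorem exists_large {G : LoopGraph W} {x : W × Bool → ℝ} (hx : x ∈ RSpace G)
    (hs : ∀ X, x (X, false) = 0) : ∃ Y, eps W < x (Y, true) := by
  by_contra hcon
  push Not at hcon
  have h1 := hx.2.1
  rw [finsum_eq_sum_of_fintype, Fintype.sum_prod_type] at h1
  simp only [Fintype.sum_bool, hs, add_zero] at h1
  have h2 : ∑ Y, x (Y, true) ≤ ∑ _Y : W, eps W := Finset.sum_le_sum fun Y _ => hcon Y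
  rw [Finset.sum_const, Finset.card_univ, nsmul_eq_mul] at h2
  linarith [card_mul_eps (W := W)]

theorem stages_simplex {G : LoopGraph W} {x : W × Bool → ℝ} (hx : x ∈ RSpace G) :
    G.IsBoxSimplex {p | st1 x p ≠ 0 ∨ st2 G x p ≠ 0} := by
  obtain ⟨h0, h1, hj, ⟨a, ha⟩, ⟨b, hb⟩⟩ := hx
  have hA : ∀ X, (X, false) ∈ {p | st1 x p ≠ 0 ∨ st2 G x p ≠ 0} →
      x (X, false) ≠ 0 ∨ cc G (eps W) (fun Y => x (Y, true)) X ≠ 0 := by
    intro X hX
    by_contra hcon
    push Not at hcon
    rcases hX with hX | hX
    · rw [st1_false] at hX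
      exact hX hcon.1
    · rw [st2_false, hcon.1, hcon.2, add_zero] at hX
      exact hX rfl
  have hB : ∀ Y, (Y, true) ∈ {p | st1 x p ≠ 0 ∨ st2 G x p ≠ 0} → eps W < x (Y, true) := by
    intro Y hY
    by_contra hcon
    rcases hY with hY | hY
    · rw [st1_true] at hY
      exact hY (max_eq_right (by linarith))
    · rw [st2_true] at hY
      exact hY rfl
  have hadj : ∀ X, (X, false) ∈ {p | st1 x p ≠ 0 ∨ st2 G x p ≠ 0} → ∀ Y, eps W < x (Y, true) →
      G.Adj X Y := by
    intro X hX Y hY
    rcases hA X hX with h | h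
    · exact hj X h Y (ne_of_gt (eps_pos.trans hY))
    · exact adj_of_cc_ne h hY.le
  refine ⟨fun X hX Y hY => hadj X hX Y (hB Y hY), ?_, ⟨b, fun Y hY => hb Y ?_⟩⟩
  · by_cases hex : ∃ Y, eps W < x (Y, true)
    · obtain ⟨Y, hY⟩ := hex
      exact ⟨Y, fun X hX => hadj X hX Y hY⟩
    · refine ⟨a, fun X hX => ha X ?_⟩
      rcases hA X hX with h | h
      · exact h
      · exact absurd (exists_of_cc_ne h) hex
  · exact ne_of_gt (eps_pos.trans (hB Y hY))

theorem st1_cone {G : LoopGraph W} {x : W × Bool → ℝ} (hx : x ∈ RSpace G) : IsCone G (st1 x) := by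
  have hn : ∀ p, 0 ≤ st1 x p := by
    rintro ⟨X, b⟩
    cases b
    · rw [st1_false]; exact hx.1 _
    · rw [st1_true]; exact le_max_right _ _
  refine ⟨hn, ?_, (stages_simplex hx).mono fun p hp => Or.inl hp⟩
  by_cases hs : ∀ X, x (X, false) = 0
  · obtain ⟨Y, hY⟩ := exists_large hx hs
    refine Finset.sum_pos' (fun p _ => hn p) ⟨(Y, true), Finset.mem_univ _, ?_⟩
    rw [st1_true]
    exact lt_max_of_lt_left (by linarith)
  · push Not at hs
    obtain ⟨X, hX⟩ := hs
    refine Finset.sum_pos' (fun p _ => hn p) ⟨(X, false), Finset.mem_univ _, ?_⟩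
    rw [st1_false]
    exact lt_of_le_of_ne (hx.1 _) (Ne.symm hX)

theorem st2_nonneg {G : LoopGraph W} {x : W × Bool → ℝ} (hx : x ∈ RSpace G) :
    ∀ p, 0 ≤ st2 G x p := by
  rintro ⟨X, b⟩
  cases b
  · rw [st2_false]; exact add_nonneg (hx.1 _) (cc_nonneg _ _ _ _)
  · rw [st2_true]

theorem st2_cone {G : LoopGraph W} {x : W × Bool → ℝ} (hx : x ∈ RSpace G) :
    IsCone G (st2 G x) := by
  have hn := st2_nonneg hx
  refine ⟨hn, ?_, (stages_simplex hx).mono fun p hp => Or.inr hp⟩
  by_cases hs : ∀ X, x (X, false) = 0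
  · obtain ⟨Y, hY⟩ := exists_large hx hs
    obtain ⟨b, hb⟩ := hx.2.2.2.2
    refine Finset.sum_pos' (fun p _ => hn p) ⟨(b, false), Finset.mem_univ _, ?_⟩
    rw [st2_false]
    have : 0 < cc G (eps W) (fun Y => x (Y, true)) b :=
      cc_pos eps_pos (fun Y hY => G.symm _ _ (hb Y hY)) hY
    linarith [hx.1 (b, false)]
  · push Not at hs
    obtain ⟨X, hX⟩ := hs
    refine Finset.sum_pos' (fun p _ => hn p) ⟨(X, false), Finset.mem_univ _, ?_⟩
    rw [st2_false]
    have h1 := lt_of_le_of_ne (hx.1 _) (Ne.symm hX)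
    linarith [cc_nonneg G (eps W) (fun Y => x (Y, true)) X]

/-- Every map to the realisation is homotopic to one whose image lies in the first half. -/
theorem homotopic_half {G : LoopGraph W} {T : Type} [TopologicalSpace T] (f : C(T, RSpace G)) :
    f.Homotopic (mkMap (fun t => st2 G (f t).1)
      ((continuous_st2 G).comp (continuous_subtype_val.comp f.continuous))
      (fun t => st2_cone (f t).2)) := by
  have h1 : f.Homotopic (mkMap (fun t => st1 (f t).1)
      (continuous_st1.comp (continuous_subtype_val.comp f.continuous))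
      (fun t => st1_cone (f t).2)) := by
    conv_lhs => rw [eq_mkMap f]
    refine mkMap_homotopic _ _ _ _ _ _ fun t => (f t).2.2.2.mono ?_
    rintro ⟨X, b⟩ hX
    rcases hX with hX | hX
    · exact hX
    · intro h0
      have h0 : (f t).1 (X, b) = 0 := h0
      cases b
      · rw [st1_false] at hX
        exact hX h0
      · rw [st1_true, h0] at hX
        exact hX (max_eq_right (by linarith [eps_pos (W := W)]))
  exact h1.trans (mkMap_homotopic _ _ _ _ _ _ fun t => stages_simplex (f t).2)

end Pool.Agent.Lib.MP_b2c03c_co
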