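import Mathlib
import Pool.Agent.Lib.MP_b2c03c_co.Dowker
import Pool.Agent.Lib.MP_b2c03c_co.Miranda

/-!
# Hat functions of the Kuhn triangulation, and null-homotopic maps to box complexes
-/

namespace Pool.Agent.Lib.MP_b2c03c_co

open LoopGraph

/-- maximum of the coordinates and zero -/
noncomputable def up (u : Fin 3 → ℝ) : ℝ := max (max (u 0) (u 1)) (max (u 2) 0)

/-- minimum of the coordinates and zero -/
noncomputable def dn (u : Fin 3 → ℝ) : ℝ := min (min (u 0) (u 1)) (min (u 2) 0)

theorem le_up (u : Fin 3 → ℝ) (i : Fin 3) : u i ≤ up u := by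
  fin_cases i <;> simp [up]

theorem zero_le_up (u : Fin 3 → ℝ) : 0 ≤ up u := by simp [up]

theorem dn_le (u : Fin 3 → ℝ) (i : Fin 3) : dn u ≤ u i := by
  fin_cases i <;> simp [dn]

theorem dn_le_zero (u : Fin 3 → ℝ) : dn u ≤ 0 := by simp [dn]

/-- the hat function of the grid point `g` -/
noncomputable def beta (g : Fin 3 → ℤ) (y : Fin 3 → ℝ) : ℝ :=
  max 0 (1 - (up (fun i => y i - g i) - dn (fun i => y i - g i)))

theorem beta_nonneg (g : Fin 3 → ℤ) (y : Fin 3 → ℝ) : 0 ≤ beta g y := le_max_left _ _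

theorem continuous_beta (g : Fin 3 → ℤ) : Continuous (beta g) := by
  unfold beta up dn
  fun_prop

theorem beta_spread {g : Fin 3 → ℤ} {y : Fin 3 → ℝ} (h : beta g y ≠ 0) :
    (∀ i, y i - g i < 1) ∧ (∀ i, -1 < y i - g i) ∧
      ∀ i j, (y i - g i) - (y j - g j) < 1 := by
  have h1 : up (fun i => y i - g i) - dn (fun i => y i - g i) < 1 := by
    by_contra hcon
    apply h
    unfold beta
    exact max_eq_left (by linarith)
  have h2 := zero_le_up (fun i => y i - g i)
  have h3 := dn_le_zero (fun i => y i - g i)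
  refine ⟨fun i => ?_, fun i => ?_, fun i j => ?_⟩
  · have := le_up (fun i => y i - g i) i
    linarith
  · have := dn_le (fun i => y i - g i) i
    linarith
  · have := le_up (fun i => y i - g i) i
    have h4 := dn_le (fun i => y i - g i) j
    linarith

theorem beta_floor_pos (y : Fin 3 → ℝ) : 0 < beta (fun i => ⌊y i⌋) y := by
  have h1 : up (fun i => y i - ⌊y i⌋) < 1 := by
    unfold up
    refine max_lt (max_lt ?_ ?_) (max_lt ?_ one_pos)
    · linarith [Int.lt_floor_add_one (y 0)]
    · linarith [Int.lt_floor_add_one (y 1)]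
    · linarith [Int.lt_floor_add_one (y 2)]
  have h2 : 0 ≤ dn (fun i => y i - ⌊y i⌋) := by
    unfold dn
    refine le_min (le_min ?_ ?_) (le_min ?_ le_rfl)
    · linarith [Int.floor_le (y 0)]
    · linarith [Int.floor_le (y 1)]
    · linarith [Int.floor_le (y 2)]
  unfold beta
  exact lt_max_of_lt_right (by linarith)

theorem pair_diff {g h : Fin 3 → ℤ} {y : Fin 3 → ℝ} (hg : beta g y ≠ 0) (hh : beta h y ≠ 0) :
    (∀ i, g i - h i ≤ 1) ∧ ∀ i j, (g i - h i) - (g j - h j) ≤ 1 := by
  obtain ⟨g1, g2, g3⟩ := beta_spread hg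
  obtain ⟨h1, h2, h3⟩ := beta_spread hh
  refine ⟨fun i => ?_, fun i j => ?_⟩
  · have : ((g i - h i : ℤ) : ℝ) < 2 := by
      push_cast
      linarith [g2 i, h1 i]
    have : g i - h i < 2 := by exact_mod_cast this
    omega
  · have : (((g i - h i) - (g j - h j) : ℤ) : ℝ) < 2 := by
      push_cast
      linarith [g3 j i, h3 i j]
    have : (g i - h i) - (g j - h j) < 2 := by exact_mod_cast this
    omega

/-- The grid points whose hat functions do not vanish at `y` are at most three if they agree in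
some coordinate. -/
theorem card_le_three {C : Finset (Fin 3 → ℤ)} {y : Fin 3 → ℝ} (hC : ∀ g ∈ C, beta g y ≠ 0)
    (i0 : Fin 3) (hi : ∀ g ∈ C, ∀ h ∈ C, g i0 = h i0) : C.card ≤ 3 := by
  rcases C.eq_empty_or_nonempty with rfl | hne
  · simp
  obtain ⟨m, hm, hmin⟩ := C.exists_min_image (fun g => g 0 + g 1 + g 2) hne
  have h3 : (Finset.Icc (m 0 + m 1 + m 2) (m 0 + m 1 + m 2 + 2)).card = 3 := by
    rw [Int.card_Icc]
    omega
  refine le_trans ?_ h3.le
  refine Finset.card_le_card_of_injOn (fun g => g 0 + g 1 + g 2) ?_ ?_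
  · intro g hg
    have hg : g ∈ C := hg
    have a1 := hmin g hg
    obtain ⟨p1, p2⟩ := pair_diff (hC g hg) (hC m hm)
    obtain ⟨q1, q2⟩ := pair_diff (hC m hm) (hC g hg)
    have b := hi g hg m hm
    have p10 := p1 0
    have p11 := p1 1
    have p12 := p1 2
    simp only [Finset.coe_Icc, Set.mem_Icc]
    refine ⟨a1, ?_⟩
    fin_cases i0 <;> simp only [Fin.zero_eta, Fin.mk_one, Fin.reduceFinMk] at b <;> omega
  · intro g hg h hh heq
    have hg : g ∈ C := hg
    have hh : h ∈ C := hh
    simp only at heq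
    obtain ⟨p1, p2⟩ := pair_diff (hC g hg) (hC h hh)
    obtain ⟨q1, q2⟩ := pair_diff (hC h hh) (hC g hg)
    have e0 := p1 0
    have e1 := p1 1
    have e2 := p1 2
    have f0 := q1 0
    have f1 := q1 1
    have f2 := q1 2
    have g01 := p2 0 1
    have g02 := p2 0 2
    have g12 := p2 1 2
    have g10 := p2 1 0
    have g20 := p2 2 0
    have g21 := p2 2 1
    have r0 : g 0 = h 0 := by omega
    have r1 : g 1 = h 1 := by omega
    have r2 : g 2 = h 2 := by omega
    ext i
    fin_cases i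
    · exact r0
    · exact r1
    · exact r2

end Pool.Agent.Lib.MP_b2c03c_co
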