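import Mathlib
import Pool.Agent.Lib.MP_b2c03c_co.Kuhn

/-!
# Maps from the 2-sphere to box complexes with few obstructions are null-homotopic
-/

namespace Pool.Agent.Lib.MP_b2c03c_co

open LoopGraph

/-- the finite set of grid points of the cube `[-n,n]³` -/
noncomputable def gridBox (n : ℕ) : Finset (Fin 3 → ℤ) := Finset.Icc (fun _ => -(n : ℤ)) (fun _ => (n : ℤ))

theorem sph_exists (x : Sph) : ∃ i, x.1 i = 1 ∨ x.1 i = -1 := by
  by_contra hcon
  push Not at hcon
  have hx : ‖x.1‖ = 1 := mem_sphere_zero_iff_norm.mp x.2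
  have : ‖x.1‖ < 1 := by
    rw [pi_norm_lt_iff one_pos]
    intro i
    have h1 : ‖x.1 i‖ ≤ 1 := (norm_le_pi_norm x.1 i).trans hx.le
    refine lt_of_le_of_ne h1 fun h2 => ?_
    rw [Real.norm_eq_abs] at h2
    rcases eq_or_eq_neg_of_abs_eq h2 with h | h
    · exact (hcon i).1 h
    · exact (hcon i).2 h
  linarith

theorem sph_abs_le (x : Sph) (i : Fin 3) : -1 ≤ x.1 i ∧ x.1 i ≤ 1 := by
  have hx : ‖x.1‖ = 1 := mem_sphere_zero_iff_norm.mp x.2
  have h1 : ‖x.1 i‖ ≤ 1 := (norm_le_pi_norm x.1 i).trans hx.le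
  rw [Real.norm_eq_abs] at h1
  exact abs_le.mp h1

theorem near_int {n : ℕ} {x : Sph} {g : Fin 3 → ℤ}
    (h : beta g (fun i => (n : ℝ) * x.1 i) ≠ 0) :
    (∀ i, -(n : ℤ) ≤ g i ∧ g i ≤ n) ∧ (∀ i, x.1 i = 1 → g i = n) ∧
      (∀ i, x.1 i = -1 → g i = -n) := by
  obtain ⟨h1, h2, -⟩ := beta_spread h
  have hb : ∀ i, -(n : ℤ) ≤ g i ∧ g i ≤ n := by
    intro i
    obtain ⟨a, b⟩ := sph_abs_le x i
    have hn : (0 : ℝ) ≤ n := Nat.cast_nonneg n
    have u1 : (g i : ℝ) < n + 1 := by nlinarith [h2 i]
    have u2 : -(n : ℝ) - 1 < g i := by nlinarith [h1 i]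
    have v1 : g i < n + 1 := by exact_mod_cast u1
    have v2 : -(n : ℤ) - 1 < g i := by exact_mod_cast u2
    constructor <;> omega
  refine ⟨hb, fun i hi => ?_, fun i hi => ?_⟩
  · have := h1 i
    rw [hi, mul_one] at this
    have : (n : ℝ) < g i + 1 := by linarith
    have : (n : ℤ) < g i + 1 := by exact_mod_cast this
    have := (hb i).2
    omega
  · have := h2 i
    rw [hi, mul_neg, mul_one] at this
    have : (g i : ℝ) < -n + 1 := by linarith
    have : g i < -(n : ℤ) + 1 := by exact_mod_cast this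
    have := (hb i).1
    omega

/-- the grid point as a point of the cube -/
noncomputable def gpt (n : ℕ) (g : Fin 3 → ℤ) : Fin 3 → ℝ := fun i => (g i : ℝ) / n

theorem gpt_mem {n : ℕ} (hn : 0 < n) {x : Sph} {g : Fin 3 → ℤ}
    (h : beta g (fun i => (n : ℝ) * x.1 i) ≠ 0) :
    gpt n g ∈ Metric.sphere (0 : Fin 3 → ℝ) 1 := by
  obtain ⟨hb, h1, h2⟩ := near_int h
  have hn' : (0 : ℝ) < n := by exact_mod_cast hn
  rw [mem_sphere_zero_iff_norm]
  apply le_antisymm
  · rw [pi_norm_le_iff_of_nonneg zero_le_one]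
    intro i
    rw [Real.norm_eq_abs, abs_le]
    unfold gpt
    have a : -(n : ℝ) ≤ g i := by exact_mod_cast (hb i).1
    have b : (g i : ℝ) ≤ n := by exact_mod_cast (hb i).2
    constructor
    · rw [le_div_iff₀ hn']; linarith
    · rw [div_le_iff₀ hn']; linarith
  · obtain ⟨i, hi⟩ := sph_exists x
    refine le_trans ?_ (norm_le_pi_norm (gpt n g) i)
    rcases hi with hi | hi
    · have : gpt n g i = 1 := by
        unfold gpt
        rw [h1 i hi]
        exact div_self hn'.ne'
      rw [this]; simp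
    · have : gpt n g i = -1 := by
        unfold gpt
        rw [h2 i hi]
        push_cast
        rw [neg_div, div_self hn'.ne']
      rw [this]; simp

theorem dist_gpt {n : ℕ} (hn : 0 < n) {x : Sph} {g : Fin 3 → ℤ}
    (h : beta g (fun i => (n : ℝ) * x.1 i) ≠ 0) : dist x.1 (gpt n g) ≤ 1 / n := by
  have hn' : (0 : ℝ) < n := by exact_mod_cast hn
  obtain ⟨h1, h2, -⟩ := beta_spread h
  rw [dist_pi_le_iff (by positivity)]
  intro i
  rw [Real.dist_eq]
  unfold gpt
  have : x.1 i - (g i : ℝ) / n = (n * x.1 i - g i) / n := by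
    field_simp
  rw [this, abs_div, abs_of_pos hn']
  exact div_le_div_of_nonneg_right (abs_le.mpr ⟨(h2 i).le, (h1 i).le⟩) hn'.le

theorem floor_mem (n : ℕ) (x : Sph) : (fun i => ⌊(n : ℝ) * x.1 i⌋) ∈ gridBox n := by
  have hn' : (0 : ℝ) ≤ n := Nat.cast_nonneg n
  unfold gridBox
  rw [Finset.mem_Icc]
  constructor
  · intro i
    obtain ⟨a, b⟩ := sph_abs_le x i
    simp only
    rw [Int.le_floor]
    push_cast
    nlinarith
  · intro i
    obtain ⟨a, b⟩ := sph_abs_le x i
    simp only
    have h1 : ((⌊(n : ℝ) * x.1 i⌋ : ℤ) : ℝ) ≤ n := by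
      refine (Int.floor_le _).trans ?_
      nlinarith
    exact_mod_cast h1

theorem rank_gt : 1 < Module.rank ℝ (Fin 3 → ℝ) := by
  rw [rank_fin_fun]
  exact_mod_cast (by norm_num : 1 < 3)

instance : PreconnectedSpace Sph :=
  Subtype.preconnectedSpace (isPreconnected_sphere rank_gt 0 1)

theorem sph_nonempty : Nonempty Sph := by
  refine ⟨⟨fun _ => 1, ?_⟩⟩
  rw [mem_sphere_zero_iff_norm]
  simp

variable {W : Type} [Fintype W]

theorem sum_half {G : LoopGraph W} {x : W × Bool → ℝ} (hx : x ∈ RSpace G)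
    (h0 : ∀ Y, x (Y, true) = 0) : ∑ X, x (X, false) = 1 := by
  have h1 := hx.2.1
  rw [finsum_eq_sum_of_fintype, Fintype.sum_prod_type] at h1
  simpa [Fintype.sum_bool, h0] using h1

theorem exists_large_half {G : LoopGraph W} {x : W × Bool → ℝ} (hx : x ∈ RSpace G)
    (h0 : ∀ Y, x (Y, true) = 0) : ∃ X, eps W < x (X, false) := by
  by_contra hcon
  push Not at hcon
  have h1 := sum_half hx h0
  have h2 : ∑ Y, x (Y, false) ≤ ∑ _Y : W, eps W := Finset.sum_le_sum fun Y _ => hcon Y
  rw [Finset.sum_const, Finset.card_univ, nsmul_eq_mul] at h2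
  linarith [card_mul_eps (W := W)]

/-- The parity class of the support is constant. -/
theorem parity_const {G : LoopGraph W} {par : W → Bool}
    (hpar : ∀ X X' Y, G.Adj X Y → G.Adj X' Y → par X = par X') (f : C(Sph, RSpace G))
    (hf : ∀ x Y, (f x).1 (Y, true) = 0) :
    ∃ b : Bool, ∀ x X, (f x).1 (X, false) ≠ 0 → par X = b := by
  classical
  let E : Sph → ℝ := fun x => ∑ X, if par X = true then (f x).1 (X, false) else 0
  have hE : Continuous E := by
    refine continuous_finsetSum _ fun X _ => ?_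
    split_ifs
    · exact (continuous_apply (X, false)).comp (continuous_subtype_val.comp f.continuous)
    · exact continuous_const
  have hpar' : ∀ x X X', (f x).1 (X, false) ≠ 0 → (f x).1 (X', false) ≠ 0 → par X = par X' := by
    intro x X X' h h'
    obtain ⟨w, hw⟩ := (f x).2.2.2.2.1
    exact hpar X X' w (hw X h) (hw X' h')
  have hE1 : ∀ x X, (f x).1 (X, false) ≠ 0 → par X = true → E x = 1 := by
    intro x X hX hb
    rw [← sum_half (f x).2 (hf x)]
    refine Finset.sum_congr rfl fun X' _ => ?_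
    split_ifs with h
    · rfl
    · by_contra hne
      exact h ((hpar' x X' X (Ne.symm hne) hX).trans hb)
  have hE0 : ∀ x X, (f x).1 (X, false) ≠ 0 → par X = false → E x = 0 := by
    intro x X hX hb
    refine Finset.sum_eq_zero fun X' _ => ?_
    split_ifs with h
    · by_contra hne
      have := (hpar' x X' X hne hX).symm.trans h
      rw [hb] at this
      exact absurd this (by decide)
    · rfl
  have hEor : ∀ x, E x = 0 ∨ E x = 1 := by
    intro x
    obtain ⟨X, hX⟩ := exists_large_half (f x).2 (hf x)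
    have hX' : (f x).1 (X, false) ≠ 0 := ne_of_gt (eps_pos.trans hX)
    cases hb : par X
    · exact Or.inl (hE0 x X hX' hb)
    · exact Or.inr (hE1 x X hX' hb)
  have hclopen : IsClopen {x | E x = 0} := by
    refine ⟨isClosed_eq hE continuous_const, ?_⟩
    rw [← isClosed_compl_iff]
    have : {x | E x = 0}ᶜ = {x | E x = 1} := by
      ext x
      constructor
      · intro hx
        exact (hEor x).resolve_left hx
      · intro hx hx'
        have hx : E x = 1 := hx
        have hx' : E x = 0 := hx'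
        rw [hx] at hx'
        norm_num at hx'
    rw [this]
    exact isClosed_eq hE continuous_const
  rcases isClopen_iff.mp hclopen with h | h
  · refine ⟨true, fun x X hX => ?_⟩
    by_contra hb
    have : x ∈ ({x | E x = 0} : Set Sph) := hE0 x X hX (by simpa using hb)
    rw [h] at this
    exact this
  · refine ⟨false, fun x X hX => ?_⟩
    by_contra hb
    have h1 : E x = 1 := hE1 x X hX (by simpa using hb)
    have h2 : x ∈ ({x | E x = 0} : Set Sph) := by rw [h]; trivial
    have h2 : E x = 0 := h2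
    rw [h1] at h2
    norm_num at h2

open Classical in
/-- unnormalised coordinates of the simplicial approximation -/
noncomputable def approx (n : ℕ) (lab : (Fin 3 → ℤ) → W) (x : Sph) : W × Bool → ℝ :=
  fun p => if p.2 = true then 0 else
    ∑ g ∈ gridBox n, if lab g = p.1 then beta g (fun i => (n : ℝ) * x.1 i) else 0

omit [Fintype W] in
@[simp] theorem approx_true (n : ℕ) (lab : (Fin 3 → ℤ) → W) (x : Sph) (Y : W) :
    approx n lab x (Y, true) = 0 := by simp [approx]

omit [Fintype W] in
theorem approx_nonneg (n : ℕ) (lab : (Fin 3 → ℤ) → W) (x : Sph) (p : W × Bool) :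
    0 ≤ approx n lab x p := by
  classical
  unfold approx
  split_ifs
  · exact le_rfl
  · refine Finset.sum_nonneg fun g _ => ?_
    split_ifs
    · exact beta_nonneg _ _
    · exact le_rfl

omit [Fintype W] in
theorem continuous_approx (n : ℕ) (lab : (Fin 3 → ℤ) → W) : Continuous (approx n lab) := by
  classical
  refine continuous_pi fun p => ?_
  unfold approx
  split_ifs
  · exact continuous_const
  · refine continuous_finsetSum _ fun g _ => ?_
    split_ifs
    · refine (continuous_beta g).comp (continuous_pi fun i => ?_)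
      exact continuous_const.mul ((continuous_apply i).comp continuous_subtype_val)
    · exact continuous_const

omit [Fintype W] in
theorem approx_support {n : ℕ} {lab : (Fin 3 → ℤ) → W} {x : Sph} {X : W}
    (h : approx n lab x (X, false) ≠ 0) :
    ∃ g ∈ gridBox n, beta g (fun i => (n : ℝ) * x.1 i) ≠ 0 ∧ lab g = X := by
  classical
  by_contra hcon
  push Not at hcon
  apply h
  simp only [approx, Bool.false_eq_true, if_false]
  refine Finset.sum_eq_zero fun g hg => ?_
  split_ifs with hX
  · by_contra hne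
    exact hcon g hg hne hX
  · rfl

theorem approx_sum_pos (n : ℕ) (lab : (Fin 3 → ℤ) → W) (x : Sph) :
    0 < ∑ p, approx n lab x p := by
  classical
  refine Finset.sum_pos' (fun p _ => approx_nonneg n lab x p)
    ⟨(lab (fun i => ⌊(n : ℝ) * x.1 i⌋), false), Finset.mem_univ _, ?_⟩
  simp only [approx, Bool.false_eq_true, if_false]
  refine Finset.sum_pos' (fun g _ => ?_) ⟨_, floor_mem n x, ?_⟩
  · split_ifs
    · exact beta_nonneg _ _
    · exact le_rfl
  · rw [if_pos rfl]
    exact beta_floor_pos _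

theorem nullhomotopic_of_half {G : LoopGraph W} {par : W → Bool}
    (hpar : ∀ X X' Y, G.Adj X Y → G.Adj X' Y → par X = par X')
    (h4 : ∀ A : Finset W, A.card ≤ 4 → (∀ a ∈ A, ∀ b ∈ A, par a = par b) →
      ∃ Y, ∀ a ∈ A, G.Adj a Y)
    (f : C(Sph, RSpace G)) (hf : ∀ x Y, (f x).1 (Y, true) = 0) : f.Nullhomotopic := by
  classical
  obtain ⟨b, hb⟩ := parity_const hpar f hf
  have huc : UniformContinuous f := CompactSpace.uniformContinuous_of_continuous f.continuous
  rw [Metric.uniformContinuous_iff] at huc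
  obtain ⟨η, hη, huc⟩ := huc (eps W) eps_pos
  obtain ⟨n, hn⟩ := exists_nat_gt (1 / η)
  have hn0 : 0 < n := by
    have : (0 : ℝ) < n := lt_trans (by positivity) hn
    exact_mod_cast this
  have hn' : (0 : ℝ) < n := by exact_mod_cast hn0
  have hnη : 1 / (n : ℝ) < η := by
    rw [div_lt_iff₀ hη] at hn
    rw [div_lt_iff₀ hn']
    linarith
  have hlarge : ∀ x : Sph, ∃ X, eps W < (f x).1 (X, false) := fun x =>
    exists_large_half (f x).2 (hf x)
  choose L hL using hlarge
  obtain ⟨x0⟩ := sph_nonempty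
  let lab : (Fin 3 → ℤ) → W := fun g =>
    if h : gpt n g ∈ Metric.sphere (0 : Fin 3 → ℝ) 1 then L ⟨gpt n g, h⟩ else L x0
  have hlab : ∀ (x : Sph) (g : Fin 3 → ℤ), beta g (fun i => (n : ℝ) * x.1 i) ≠ 0 →
      (f x).1 (lab g, false) ≠ 0 := by
    intro x g hg
    have hmem := gpt_mem hn0 hg
    have hl : lab g = L ⟨gpt n g, hmem⟩ := dif_pos hmem
    have h1 := hL ⟨gpt n g, hmem⟩
    have h2 : dist x ⟨gpt n g, hmem⟩ < η := (dist_gpt hn0 hg).trans_lt hnη
    have h3 := huc h2
    have h4 : dist ((f x).1 (lab g, false)) ((f ⟨gpt n g, hmem⟩).1 (lab g, false)) < eps W :=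
      (dist_le_pi_dist _ _ (lab g, false)).trans_lt h3
    rw [Real.dist_eq, abs_lt] at h4
    rw [← hl] at h1
    intro h0
    linarith [h4.1]
  have hsub : ∀ x : Sph, {p | (f x).1 p ≠ 0 ∨ approx n lab x p ≠ 0} ⊆ {p | (f x).1 p ≠ 0} := by
    rintro x ⟨X, b⟩ (h | h)
    · exact h
    · cases b
      · obtain ⟨g, _, hg, rfl⟩ := approx_support h
        exact hlab x g hg
      · exact absurd (approx_true n lab x X) h
  have hcone : ∀ x, IsCone G (approx n lab x) := fun x =>
    ⟨approx_nonneg n lab x, approx_sum_pos n lab x,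
      (f x).2.2.2.mono (fun p hp => hsub x (Or.inr hp))⟩
  have e1 : f.Homotopic (mkMap (approx n lab) (continuous_approx n lab) hcone) := by
    conv_lhs => rw [eq_mkMap f]
    exact mkMap_homotopic _ _ _ _ _ _ fun x => (f x).2.2.2.mono (hsub x)
  -- the cone vertex
  set c : W := L x0 with hc
  have hcb : par c = b := hb x0 c (ne_of_gt (eps_pos.trans (hL x0)))
  let z : W × Bool → ℝ := fun p => if p = (c, false) then 1 else 0
  have hmain : ∀ x : Sph, G.IsBoxSimplex {p | approx n lab x p ≠ 0 ∨ z p ≠ 0} := by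
    intro x
    have hno : ∀ Y, (Y, true) ∉ {p | approx n lab x p ≠ 0 ∨ z p ≠ 0} := by
      rintro Y (h | h)
      · exact h (approx_true n lab x Y)
      · apply h
        simp [z]
    let C := (gridBox n).filter (fun g => beta g (fun i => (n : ℝ) * x.1 i) ≠ 0)
    have hC3 : C.card ≤ 3 := by
      obtain ⟨i0, hi0⟩ := sph_exists x
      refine card_le_three (y := fun i => (n : ℝ) * x.1 i)
        (fun g hg => (Finset.mem_filter.mp hg).2) i0 ?_
      intro g hg h hh
      obtain ⟨_, a1, a2⟩ := near_int (Finset.mem_filter.mp hg).2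
      obtain ⟨_, b1, b2⟩ := near_int (Finset.mem_filter.mp hh).2
      rcases hi0 with h0 | h0
      · rw [a1 i0 h0, b1 i0 h0]
      · rw [a2 i0 h0, b2 i0 h0]
    let A : Finset W := insert c (C.image lab)
    have hA4 : A.card ≤ 4 := by
      refine (Finset.card_insert_le _ _).trans ?_
      have := (Finset.card_image_le (s := C) (f := lab)).trans hC3
      omega
    have hAb : ∀ a ∈ A, par a = b := by
      intro a ha
      rcases Finset.mem_insert.mp ha with rfl | ha
      · exact hcb
      · obtain ⟨g, hg, rfl⟩ := Finset.mem_image.mp ha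
        exact hb x _ (hlab x g (Finset.mem_filter.mp hg).2)
    obtain ⟨Y, hY⟩ := h4 A hA4 (fun a ha a' ha' => (hAb a ha).trans (hAb a' ha').symm)
    refine ⟨fun X _ Y hY => absurd hY (hno Y), ⟨Y, fun X hX => hY X ?_⟩,
      ⟨c, fun X hX => absurd hX (hno X)⟩⟩
    rcases hX with hX | hX
    · obtain ⟨g, hg, hg', rfl⟩ := approx_support hX
      exact Finset.mem_insert_of_mem (Finset.mem_image_of_mem _ (Finset.mem_filter.mpr ⟨hg, hg'⟩))
    · have : X = c := by
        by_contra hne
        apply hX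
        simp [z, hne]
      rw [this]
      exact Finset.mem_insert_self _ _
  have hz : IsCone G z := by
    refine ⟨fun p => ?_, ?_, (hmain x0).mono fun p hp => Or.inr hp⟩
    · simp only [z]
      split_ifs <;> norm_num
    · simp [z]
  have e2 : (mkMap (approx n lab) (continuous_approx n lab) hcone).Homotopic
      (mkMap (fun _ : Sph => z) continuous_const (fun _ => hz)) :=
    mkMap_homotopic _ _ _ _ _ _ hmain
  refine ⟨⟨fun p => z p / ∑ q, z q, nrm_mem hz⟩, e1.trans (e2.trans ?_)⟩
  have : mkMap (G := G) (fun _ : Sph => z) continuous_const (fun _ => hz) =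
      ContinuousMap.const Sph ⟨fun p => z p / ∑ q, z q, nrm_mem hz⟩ := by
    ext x p
    rfl
  rw [this]

theorem nullhomotopic_box {G : LoopGraph W} {par : W → Bool}
    (hpar : ∀ X X' Y, G.Adj X Y → G.Adj X' Y → par X = par X')
    (h4 : ∀ A : Finset W, A.card ≤ 4 → (∀ a ∈ A, ∀ b ∈ A, par a = par b) →
      ∃ Y, ∀ a ∈ A, G.Adj a Y)
    (f : C(Sph, RSpace G)) : f.Nullhomotopic := by
  have h1 := homotopic_half f
  obtain ⟨y, hy⟩ := nullhomotopic_of_half hpar h4 (mkMap (fun t => st2 G (f t).1)
      ((continuous_st2 G).comp (continuous_subtype_val.comp f.continuous))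
      (fun t => st2_cone (f t).2)) (by
        intro x Y
        change st2 G (f x).1 (Y, true) / _ = 0
        rw [st2_true, zero_div])
  exact ⟨y, h1.trans hy⟩

end Pool.Agent.Lib.MP_b2c03c_co
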