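import Mathlib
import Pool.Agent.Lib.MP_b2c03c_co.Dowker
import Pool.Agent.Lib.MP_b2c03c_co.Miranda

/-!
# An essential map from the 2-sphere to a box complex, detected by a labelling
-/

namespace Pool.Agent.Lib.MP_b2c03c_co

open LoopGraph

variable {W : Type} [Fintype W]

open Classical in
/-- total mass of the label `i` -/
noncomputable def mass (G : LoopGraph W) (ρ : W → Fin 4) (i : Fin 4) (x : W × Bool → ℝ) : ℝ :=
  ∑ X, if ρ X = i then st2 G x (X, false) else 0

theorem continuous_mass (G : LoopGraph W) (ρ : W → Fin 4) (i : Fin 4) :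
    Continuous (mass G ρ i) := by
  classical
  unfold mass
  refine continuous_finsetSum _ fun X _ => ?_
  split_ifs
  · have : (fun x : W × Bool → ℝ => st2 G x (X, false)) =
        (fun y : W × Bool → ℝ => y (X, false)) ∘ st2 G := rfl
    rw [this]
    exact (continuous_apply _).comp (continuous_st2 G)
  · exact continuous_const

theorem mass_not_const {G : LoopGraph W} {ρ : W → Fin 4}
    (hmiss : ∀ Y, ∃ i, ∀ X, G.Adj X Y → ρ X ≠ i) {x : W × Bool → ℝ} (hx : x ∈ RSpace G) (c : ℝ)
    (h : ∀ i, mass G ρ i x = c) : False := by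
  classical
  obtain ⟨w, hw⟩ := (st2_cone hx).2.2.2.1
  obtain ⟨i, hi⟩ := hmiss w
  have h0 : mass G ρ i x = 0 := by
    unfold mass
    refine Finset.sum_eq_zero fun X _ => ?_
    split_ifs with hX
    · by_contra hne
      exact hi X (G.symm _ _ (G.symm _ _ (hw X hne))) hX
    · rfl
  have hc : c = 0 := by rw [← h i, h0]
  have htot : ∑ p, st2 G x p = 0 := by
    rw [Fintype.sum_prod_type]
    simp only [Fintype.sum_bool, st2_true, zero_add]
    have : ∑ i, mass G ρ i x = 0 := by
      simp only [h, hc, Finset.sum_const_zero]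
    unfold mass at this
    rw [Finset.sum_comm] at this
    simpa using this
  exact absurd (st2_cone hx).2.1 (by rw [htot]; exact lt_irrefl _)

/-- the map to punctured space -/
noncomputable def toPunct (G : LoopGraph W) (ρ : W → Fin 4)
    (hmiss : ∀ Y, ∃ i, ∀ X, G.Adj X Y → ρ X ≠ i) : C(RSpace G, Punct) where
  toFun x := ⟨fun j => mass G ρ j.castSucc x.1 - mass G ρ (Fin.last 3) x.1, by
    intro h
    refine mass_not_const hmiss x.2 (mass G ρ (Fin.last 3) x.1) fun i => ?_
    refine Fin.lastCases rfl (fun j => ?_) i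
    have := congrFun h j
    simp only [Pi.zero_apply] at this
    linarith⟩
  continuous_toFun := by
    refine Continuous.subtype_mk ?_ _
    refine continuous_pi fun j => ?_
    exact ((continuous_mass _ _ _).comp continuous_subtype_val).sub
      ((continuous_mass _ _ _).comp continuous_subtype_val)

/-- homogeneous coordinates -/
noncomputable def hat (x : Fin 3 → ℝ) : Fin 4 → ℝ := ![x 0, x 1, x 2, 0]

/-- the minimum of the homogeneous coordinates -/
noncomputable def hmin (x : Fin 3 → ℝ) : ℝ := min (min (x 0) (x 1)) (min (x 2) 0)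

theorem hmin_le (x : Fin 3 → ℝ) (i : Fin 4) : hmin x ≤ hat x i := by
  fin_cases i <;> simp [hmin, hat]

theorem exists_hmin (x : Fin 3 → ℝ) : ∃ i, hat x i = hmin x := by
  rcases min_choice (min (x 0) (x 1)) (min (x 2) 0) with h | h
  · rcases min_choice (x 0) (x 1) with h' | h'
    · exact ⟨0, by rw [hmin, h, h']; rfl⟩
    · exact ⟨1, by rw [hmin, h, h']; rfl⟩
  · rcases min_choice (x 2) 0 with h' | h'
    · exact ⟨2, by rw [hmin, h, h']; rfl⟩
    · exact ⟨3, by rw [hmin, h, h']; rfl⟩

theorem continuous_hat : Continuous hat := by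
  refine continuous_pi fun i => ?_
  fin_cases i
  · exact continuous_apply 0
  · exact continuous_apply 1
  · exact continuous_apply 2
  · exact continuous_const

theorem continuous_hmin : Continuous hmin := by
  unfold hmin
  fun_prop

open Classical in
/-- unnormalised coordinates of the embedded tetrahedron surface -/
noncomputable def tetra (P : Fin 4 → W) (x : Fin 3 → ℝ) : W × Bool → ℝ :=
  fun p => if p.2 = true then 0 else ∑ j, if p.1 = P j then hat x j - hmin x else 0

omit [Fintype W] in
@[simp] theorem tetra_true (P : Fin 4 → W) (x : Fin 3 → ℝ) (X : W) :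
    tetra P x (X, true) = 0 := by
  simp [tetra]

omit [Fintype W] in
theorem continuous_tetra (P : Fin 4 → W) : Continuous (tetra P) := by
  classical
  refine continuous_pi fun p => ?_
  unfold tetra
  split_ifs
  · exact continuous_const
  · refine continuous_finsetSum _ fun j _ => ?_
    split_ifs
    · exact ((continuous_apply j).comp continuous_hat).sub continuous_hmin
    · exact continuous_const

omit [Fintype W] in
theorem tetra_nonneg (P : Fin 4 → W) (x : Fin 3 → ℝ) (p : W × Bool) : 0 ≤ tetra P x p := by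
  classical
  unfold tetra
  split_ifs
  · exact le_rfl
  · refine Finset.sum_nonneg fun j _ => ?_
    split_ifs
    · linarith [hmin_le x j]
    · exact le_rfl

omit [Fintype W] in
theorem tetra_apply {P : Fin 4 → W} (hP : Function.Injective P) (x : Fin 3 → ℝ) (j : Fin 4) :
    tetra P x (P j, false) = hat x j - hmin x := by
  classical
  simp [tetra, hP.eq_iff]

omit [Fintype W] in
theorem tetra_support {P : Fin 4 → W} {x : Fin 3 → ℝ} {X : W} (h : tetra P x (X, false) ≠ 0) :
    ∃ j, X = P j ∧ hat x j ≠ hmin x := by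
  classical
  by_contra hcon
  push Not at hcon
  apply h
  simp only [tetra, Bool.false_eq_true, if_false]
  refine Finset.sum_eq_zero fun j _ => ?_
  split_ifs with hX
  · rw [hcon j hX, sub_self]
  · rfl

theorem tetra_cone {G : LoopGraph W} {P : Fin 4 → W} (hP : Function.Injective P)
    (htri : ∀ i, ∃ Y, ∀ j, j ≠ i → G.Adj (P j) Y) (x : Sph) : IsCone G (tetra P x.1) := by
  refine ⟨tetra_nonneg P _, ?_, ?_, ?_, ?_⟩
  · -- some coordinate is not minimal
    have hx : x.1 ≠ 0 := by
      intro h
      have := mem_sphere_zero_iff_norm.mp x.2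
      rw [h, norm_zero] at this
      norm_num at this
    obtain ⟨j, hj⟩ : ∃ j, hmin x.1 < hat x.1 j := by
      by_contra hcon
      push Not at hcon
      have heq : ∀ j, hat x.1 j = hmin x.1 := fun j => le_antisymm (hcon j) (hmin_le _ j)
      apply hx
      have h3 : hmin x.1 = 0 := (heq 3).symm
      ext i
      fin_cases i
      · exact (heq 0).trans h3
      · exact (heq 1).trans h3
      · exact (heq 2).trans h3
    refine Finset.sum_pos' (fun p _ => tetra_nonneg P _ p) ⟨(P j, false), Finset.mem_univ _, ?_⟩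
    rw [tetra_apply hP]
    linarith
  · intro X _ Y hY
    exact absurd (tetra_true P x.1 Y) hY
  · obtain ⟨i, hi⟩ := exists_hmin x.1
    obtain ⟨Y, hY⟩ := htri i
    refine ⟨Y, fun X hX => ?_⟩
    obtain ⟨j, rfl, hj⟩ := tetra_support hX
    refine hY j ?_
    rintro rfl
    exact hj hi
  · obtain ⟨Y, _⟩ := htri 0
    exact ⟨Y, fun X hX => absurd (tetra_true P x.1 X) hX⟩

/-- the embedded tetrahedron surface -/
noncomputable def tetraMap {G : LoopGraph W} {P : Fin 4 → W} (hP : Function.Injective P)
    (htri : ∀ i, ∃ Y, ∀ j, j ≠ i → G.Adj (P j) Y) : C(Sph, RSpace G) :=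
  mkMap (fun x : Sph => tetra P x.1) ((continuous_tetra P).comp continuous_subtype_val)
    (tetra_cone hP htri)

theorem mass_tetraMap {G : LoopGraph W} {P : Fin 4 → W} (hP : Function.Injective P)
    (htri : ∀ i, ∃ Y, ∀ j, j ≠ i → G.Adj (P j) Y) (ρ : W → Fin 4) (hρ : ∀ j, ρ (P j) = j)
    (x : Sph) (i : Fin 4) :
    mass G ρ i (tetraMap hP htri x).1 = (hat x.1 i - hmin x.1) / ∑ q, tetra P x.1 q := by
  classical
  have hval : ∀ p, (tetraMap hP htri x).1 p = tetra P x.1 p / ∑ q, tetra P x.1 q := fun p => rfl
  have ht : (fun Y => (tetraMap hP htri x).1 (Y, true)) = fun _ => 0 := by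
    ext Y
    rw [hval, tetra_true, zero_div]
  have hcc : ∀ X, cc G (eps W) (fun _ => 0) X = 0 := by
    intro X
    by_contra hne
    obtain ⟨Y, hY⟩ := exists_of_cc_ne hne
    exact absurd hY (not_lt.mpr eps_pos.le)
  have hst : ∀ X, st2 G (tetraMap hP htri x).1 (X, false) =
      tetra P x.1 (X, false) / ∑ q, tetra P x.1 q := by
    intro X
    rw [st2_false, ht, hcc, add_zero, hval]
  unfold mass
  simp only [hst]
  rw [Finset.sum_eq_single (P i)]
  · rw [if_pos (hρ i), tetra_apply hP]
  · intro X _ hX
    split_ifs with h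
    · have : tetra P x.1 (X, false) = 0 := by
        by_contra hne
        obtain ⟨j, rfl, _⟩ := tetra_support hne
        rw [hρ] at h
        rw [h] at hX
        exact hX rfl
      rw [this, zero_div]
    · rfl
  · intro h
    exact absurd (Finset.mem_univ _) h

/-- The embedded tetrahedron surface is essential if every neighbourhood misses a label. -/
theorem tetra_essential {G : LoopGraph W} {P : Fin 4 → W} (hP : Function.Injective P)
    (htri : ∀ i, ∃ Y, ∀ j, j ≠ i → G.Adj (P j) Y) (ρ : W → Fin 4) (hρ : ∀ j, ρ (P j) = j)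
    (hmiss : ∀ Y, ∃ i, ∀ X, G.Adj X Y → ρ X ≠ i) :
    ¬ ((toPunct G ρ hmiss).comp (tetraMap hP htri)).Nullhomotopic := by
  have hval : ∀ (x : Sph) (j : Fin 3), (((toPunct G ρ hmiss).comp (tetraMap hP htri)) x).1 j =
      x.1 j / ∑ q, tetra P x.1 q := by
    intro x j
    change mass G ρ j.castSucc (tetraMap hP htri x).1 -
      mass G ρ (Fin.last 3) (tetraMap hP htri x).1 = _
    rw [mass_tetraMap hP htri ρ hρ, mass_tetraMap hP htri ρ hρ, ← sub_div]
    congr 1
    have h3 : hat x.1 (Fin.last 3) = 0 := rfl
    have hj : hat x.1 j.castSucc = x.1 j := by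
      fin_cases j <;> rfl
    rw [h3, hj]
    ring
  have hpos : ∀ x : Sph, 0 < ∑ q, tetra P x.1 q := fun x => (tetra_cone hP htri x).2.1
  refine not_nullhomotopic _ ?_ ?_
  · intro x i hx
    rw [hval, hx]
    exact div_pos one_pos (hpos x)
  · intro x i hx
    rw [hval, hx]
    exact div_neg_of_neg_of_pos (by norm_num) (hpos x)

end Pool.Agent.Lib.MP_b2c03c_co
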