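import Mathlib
import Pool.Agent.Lib.MP_b2c03c_co.Comb

/-!
# The common neighbours of opposite vertices
-/

namespace Pool.Agent.Lib.MP_b2c03c_co

open LoopGraph

theorem c0 : ∀ q a : ZMod 20, (∀ b, b - (q + 5) ∈ F0 2 → b - a ∈ SS) →
    (∀ b, b - (q + 15) ∈ F0 2 → b - a ∈ SS) → a = q ∨ a = q + 10 := by decide +kernel

theorem c1 : ∀ q a : ZMod 20, a - q ∈ SS → (∀ b, b - (q + 5) ∈ F0 1 → b - a ∈ SS) →
    (∀ b, b - (q + 15) ∈ F0 1 → b - a ∈ SS) → a = q + 9 ∨ a = q + 11 := by decide +kernel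

theorem c1a : ∀ q a : ZMod 20, a = q + 9 ∨ a = q + 11 →
    (∀ b, b - (q + 5) ∈ F0 3 → b - a ∈ SS) → a = q + 9 := by decide +kernel

theorem c1b : ∀ q a : ZMod 20, a = q + 9 ∨ a = q + 11 →
    (∀ b, b - (q + 15) ∈ F0 3 → b - a ∈ SS) → a = q + 11 := by decide +kernel

theorem c2 : ∀ q a : ZMod 20, a - (q + 9) ∈ SS → a - (q + 11) ∈ SS →
    (∀ b, b - (q + 5) ∈ F0 0 → b - a ∈ SS) → (∀ b, b - (q + 15) ∈ F0 0 → b - a ∈ SS) →
    a - q ∈ F0 2 := by decide +kernel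

theorem c2a : ∀ q a : ZMod 20, a - q ∈ F0 2 → a - (q + 5) ∈ F0 3 → a = q + 18 := by
  decide +kernel

theorem c2b : ∀ q a : ZMod 20, a - q ∈ F0 2 → a - (q + 15) ∈ F0 3 → a = q + 2 := by
  decide +kernel

theorem c3x : ∀ q a z : ZMod 20, z - (q + 5) ∈ F0 1 → a - z ∈ SS → a ≠ q + 15 := by
  decide +kernel

theorem c3y : ∀ q a z : ZMod 20, z - (q + 15) ∈ F0 1 → a - z ∈ SS → a ≠ q + 5 := by
  decide +kernel

theorem c3 : ∀ q a : ZMod 20, a - (q + 18) ∈ SS → a - q ∈ SS → a - (q + 2) ∈ SS →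
    a ≠ q + 15 → a ≠ q + 5 → a - q ∈ F0 3 := by decide +kernel

theorem c3a : ∀ q a : ZMod 20, a - q ∈ F0 3 → a - (q + 5) ∈ F0 2 → a = q + 7 := by
  decide +kernel

theorem c3b : ∀ q a : ZMod 20, a - q ∈ F0 3 → a - (q + 15) ∈ F0 2 → a = q + 13 := by
  decide +kernel

theorem m1 : ∀ q a : ZMod 20, a - q ∈ F0 1 ↔ a = q + 9 ∨ a = q + 11 := by decide +kernel

theorem m2 : ∀ q a : ZMod 20, a - q ∈ F0 2 ↔ a = q + 18 ∨ a = q ∨ a = q + 2 := by decide +kernel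

theorem m3 : ∀ q a : ZMod 20, a - q ∈ F0 3 ↔ a = q + 7 ∨ a = q + 9 ∨ a = q + 11 ∨ a = q + 13 := by
  decide +kernel

/-- One of the two cases of the determination of the common neighbours. -/
theorem star_aux (q : ZMod 20) (X : UU.OmVertex 3) (h1 : HH.Adj X (Xv (q + 5)))
    (h2 : HH.Adj X (Xv (q + 15))) (h0 : X.1 0 = {q}) : X = Xv q := by
  obtain ⟨u1, u2, u3, u4, u5, ⟨z6, u6, u6'⟩, ⟨z7, u7, u7'⟩, ⟨z8, u8, u8'⟩, ⟨z9, u9, u9'⟩⟩ :=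
    walk_cond h1
  obtain ⟨v1, v2, v3, -, -, ⟨y6, v6, v6'⟩, ⟨y7, v7, v7'⟩, ⟨y8, v8, v8'⟩, ⟨y9, v9, v9'⟩⟩ :=
    walk_cond h2
  have j0 : UU.Join (X.1 0) (X.1 1) := X.2.2 0
  have j1 : UU.Join (X.1 1) (X.1 2) := X.2.2 1
  have j2 : UU.Join (X.1 2) (X.1 3) := X.2.2 2
  have hq0 : q ∈ X.1 0 := by rw [h0]; rfl
  have s1 : ∀ a ∈ X.1 1, a = q + 9 ∨ a = q + 11 := fun a ha =>
    c1 q a (j0 q hq0 a ha) (fun b hb => u2 a ha b hb) (fun b hb => v2 a ha b hb)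
  have t1 : q + 9 ∈ X.1 1 := by
    have := c1a q z6 (s1 z6 u6) (fun b hb => u6' b hb)
    rwa [this] at u6
  have t2 : q + 11 ∈ X.1 1 := by
    have := c1b q y6 (s1 y6 v6) (fun b hb => v6' b hb)
    rwa [this] at v6
  have s2 : ∀ a ∈ X.1 2, a - q ∈ F0 2 := fun a ha =>
    c2 q a (j1 _ t1 a ha) (j1 _ t2 a ha) (fun b hb => u3 a ha b hb) (fun b hb => v3 a ha b hb)
  have t3 : q + 18 ∈ X.1 2 := by
    have := c2a q z7 (s2 z7 u7) u7'
    rwa [this] at u7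
  have t4 : q + 2 ∈ X.1 2 := by
    have := c2b q y7 (s2 y7 v7) v7'
    rwa [this] at v7
  have t5 : q ∈ X.1 2 := u4 hq0
  have s3 : ∀ a ∈ X.1 3, a - q ∈ F0 3 := fun a ha =>
    c3 q a (j2 _ t3 a ha) (j2 _ t5 a ha) (j2 _ t4 a ha) (c3x q a z9 u9 (u9' a ha))
      (c3y q a y9 v9 (v9' a ha))
  have t6 : q + 7 ∈ X.1 3 := by
    have := c3a q z8 (s3 z8 u8) u8'
    rwa [this] at u8
  have t7 : q + 13 ∈ X.1 3 := by
    have := c3b q y8 (s3 y8 v8) v8'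
    rwa [this] at v8
  apply Subtype.ext
  funext i
  change X.1 i = {x | x - q ∈ F0 i}
  ext x
  fin_cases i
  · change x ∈ X.1 0 ↔ x - q ∈ F0 0
    rw [h0]
    change x = q ↔ x - q ∈ ({0} : Finset (ZMod 20))
    rw [Finset.mem_singleton, sub_eq_zero]
  · change x ∈ X.1 1 ↔ x - q ∈ F0 1
    rw [m1]
    refine ⟨s1 x, ?_⟩
    rintro (rfl | rfl)
    · exact t1
    · exact t2
  · change x ∈ X.1 2 ↔ x - q ∈ F0 2
    refine ⟨s2 x, ?_⟩
    rw [m2]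
    rintro (rfl | rfl | rfl)
    · exact t3
    · exact t5
    · exact t4
  · change x ∈ X.1 3 ↔ x - q ∈ F0 3
    refine ⟨s3 x, ?_⟩
    rw [m3]
    rintro (rfl | rfl | rfl | rfl)
    · exact t6
    · exact u5 t1
    · exact u5 t2
    · exact t7

theorem star (q : ZMod 20) (X : UU.OmVertex 3) (h1 : HH.Adj X (Xv (q + 5)))
    (h2 : HH.Adj X (Xv (q + 15))) : X = Xv q ∨ X = Xv (q + 10) := by
  obtain ⟨a, ha⟩ := Set.ncard_eq_one.mp X.2.1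
  have ha' : X.1 0 = {a} := ha
  have haX : a ∈ X.1 0 := by rw [ha']; rfl
  obtain ⟨u1, -⟩ := walk_cond h1
  obtain ⟨v1, -⟩ := walk_cond h2
  rcases c0 q a (fun b hb => u1 a haX b hb) (fun b hb => v1 a haX b hb) with h | h
  · left
    rw [h] at ha'
    exact star_aux q X h1 h2 ha'
  · right
    rw [h] at ha'
    have e1 : q + 10 + 5 = q + 15 := by rw [add_assoc]; congr 1
    have e2 : q + 10 + 15 = q + 5 := by rw [add_assoc]; congr 1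
    refine star_aux (q + 10) X ?_ ?_ ha'
    · rwa [e1]
    · rwa [e2]

theorem Xv_injective : Function.Injective Xv := by
  intro p q h
  have h1 : (Xv p).1 0 = (Xv q).1 0 := by rw [h]
  have h2 : p ∈ (Xv p).1 0 := by
    change p - p ∈ F0 0
    rw [sub_self]
    decide
  rw [h1] at h2
  have h3 : p - q ∈ ({0} : Finset (ZMod 20)) := h2
  rwa [Finset.mem_singleton, sub_eq_zero] at h3

end Pool.Agent.Lib.MP_b2c03c_co
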