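import Mathlib
import Pool.Agent.Lib.MP_b2c03c_co.Star
import Pool.Agent.Lib.MP_b2c03c_co.Retract
import Pool.Agent.Lib.MP_b2c03c_co.NullHtpy

/-!
# Assembling the disproof
-/

namespace Pool.Agent.Lib.MP_b2c03c_co

open LoopGraph

/-- The general principle: a box complex with a labelled tetrahedron is not a homotopy retract of
a box complex all of whose small vertex sets have common neighbours. -/
theorem no_retract {W₁ W₂ : Type} [Fintype W₁] [Fintype W₂] {H : LoopGraph W₁} {G : LoopGraph W₂}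
    {P : Fin 4 → W₁} (hP : Function.Injective P)
    (htri : ∀ i, ∃ Y, ∀ j, j ≠ i → H.Adj (P j) Y) (ρ : W₁ → Fin 4) (hρ : ∀ j, ρ (P j) = j)
    (hmiss : ∀ Y, ∃ i, ∀ X, H.Adj X Y → ρ X ≠ i)
    {par : W₂ → Bool} (hpar : ∀ X X' Y, G.Adj X Y → G.Adj X' Y → par X = par X')
    (h4 : ∀ A : Finset W₂, A.card ≤ 4 → (∀ a ∈ A, ∀ b ∈ A, par a = par b) →
      ∃ Y, ∀ a ∈ A, G.Adj a Y)
    (φ : C(RSpace H, RSpace G)) (ψ : C(RSpace G, RSpace H))
    (h : (ψ.comp φ).Homotopic (ContinuousMap.id _)) : False := by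
  apply tetra_essential hP htri ρ hρ hmiss
  have h1 : (φ.comp (tetraMap hP htri)).Nullhomotopic := nullhomotopic_box hpar h4 _
  obtain ⟨y, hy⟩ := h1
  refine ⟨(toPunct H ρ hmiss) (ψ y), ?_⟩
  have h2 : ((toPunct H ρ hmiss).comp (tetraMap hP htri)).Homotopic
      ((toPunct H ρ hmiss).comp ((ψ.comp φ).comp (tetraMap hP htri))) := by
    have h3 : ((ContinuousMap.id _).comp (tetraMap hP htri)).Homotopic
        ((ψ.comp φ).comp (tetraMap hP htri)) := h.symm.comp (ContinuousMap.Homotopic.refl _)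
    have h4 := (ContinuousMap.Homotopic.refl (toPunct H ρ hmiss)).comp h3
    simpa using h4
  refine h2.trans ?_
  have h5 : ((ψ.comp φ).comp (tetraMap hP htri)).Homotopic
      (ψ.comp (ContinuousMap.const Sph y)) := by
    rw [ContinuousMap.comp_assoc]
    exact (ContinuousMap.Homotopic.refl ψ).comp hy
  have h6 := (ContinuousMap.Homotopic.refl (toPunct H ρ hmiss)).comp h5
  exact h6

/-- all adjacencies that are needed -/
theorem adjX : ∀ p q : ZMod 20, q - p ∈ ({5, 9, 11, 15} : Finset (ZMod 20)) →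
    HH.Adj (Xv p) (Xv q) := by
  intro p q h
  simp only [Finset.mem_insert, Finset.mem_singleton] at h
  rcases h with h | h | h | h
  · have : q = p + 5 := by rw [← h]; ring
    rw [this]; exact adj5 p
  · have : q = p + 9 := by rw [← h]; ring
    rw [this]; exact adj9 p
  · have : p = q + 9 := by
      have h' : q = p + 11 := by rw [← h]; ring
      rw [h', add_assoc]
      have : (11 : ZMod 20) + 9 = 0 := by decide
      rw [this, add_zero]
    rw [this]; exact HH.symm _ _ (adj9 q)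
  · have : p = q + 5 := by
      have h' : q = p + 15 := by rw [← h]; ring
      rw [h', add_assoc]
      have : (15 : ZMod 20) + 5 = 0 := by decide
      rw [this, add_zero]
    rw [this]; exact HH.symm _ _ (adj5 q)

/-- the vertices of the tetrahedron -/
def PP : Fin 4 → ZMod 20 := ![0, 10, 14, 4]

theorem PP_inj : Function.Injective PP := by decide

/-- the vertices of the tetrahedron in the graph without isolated vertices -/
noncomputable def PW (j : Fin 4) : {v : UU.OmVertex 3 // ∃ w, HH.Adj v w} :=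
  ⟨Xv (PP j), ⟨Xv (PP j + 5), adj5 _⟩⟩

open Classical in
/-- the labelling -/
noncomputable def rho (v : {v : UU.OmVertex 3 // ∃ w, HH.Adj v w}) : Fin 4 :=
  if v.1 = Xv 0 then 0 else if v.1 = Xv 10 then 1 else if HH.Adj v.1 (Xv 5) then 2 else 3

theorem rho_PW (j : Fin 4) : rho (PW j) = j := by
  classical
  have hne : ∀ p q : ZMod 20, p ≠ q → Xv p ≠ Xv q := fun p q h h' => h (Xv_injective h')
  fin_cases j
  · simp [rho, PW, PP]
  · have : Xv 10 ≠ Xv 0 := hne _ _ (by decide)
    simp [rho, PW, PP, this]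
  · have h1 : Xv 14 ≠ Xv 0 := hne _ _ (by decide)
    have h2 : Xv 14 ≠ Xv 10 := hne _ _ (by decide)
    have h3 : HH.Adj (Xv 14) (Xv 5) := adjX _ _ (by decide)
    simp [rho, PW, PP, h1, h2, h3]
  · have h1 : Xv 4 ≠ Xv 0 := hne _ _ (by decide)
    have h2 : Xv 4 ≠ Xv 10 := hne _ _ (by decide)
    have h3 : ¬ HH.Adj (Xv 4) (Xv 5) := by
      intro h
      have h4 : HH.Adj (Xv 4) (Xv 15) := adjX _ _ (by decide)
      rcases star 0 (Xv 4) h h4 with h5 | h5
      · exact h1 h5
      · exact h2 h5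
    simp [rho, PW, PP, h1, h2, h3]

theorem rho_miss (Y : {v : UU.OmVertex 3 // ∃ w, HH.Adj v w}) :
    ∃ i, ∀ X, HH.deleteIsolated.Adj X Y → rho X ≠ i := by
  classical
  by_cases h5 : Y.1 = Xv 5
  · refine ⟨3, fun X hX => ?_⟩
    have hX : HH.Adj X.1 Y.1 := hX
    rw [h5] at hX
    unfold rho
    split_ifs <;> decide
  by_cases h15 : Y.1 = Xv 15
  · refine ⟨2, fun X hX => ?_⟩
    have hX : HH.Adj X.1 Y.1 := hX
    rw [h15] at hX
    unfold rho
    split_ifs with a b c
    · decide
    · decide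
    · exfalso
      rcases star 0 X.1 c hX with h | h
      · exact a h
      · exact b h
    · decide
  by_cases h0 : HH.Adj (Xv 0) Y.1
  · refine ⟨1, fun X hX => ?_⟩
    have hX : HH.Adj X.1 Y.1 := hX
    unfold rho
    split_ifs with a b c
    · decide
    · exfalso
      rw [b] at hX
      have e0 : Xv (5 + 15) = Xv 0 := by congr 1
      have e1 : Xv (5 + 5) = Xv 10 := by congr 1
      rcases star 5 Y.1 (by rw [e1]; exact HH.symm _ _ hX) (by rw [e0]; exact HH.symm _ _ h0)
        with h | h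
      · exact h5 h
      · exact h15 h
    · decide
    · decide
  · refine ⟨0, fun X hX => ?_⟩
    have hX : HH.Adj X.1 Y.1 := hX
    unfold rho
    split_ifs with a b c
    · exfalso
      rw [a] at hX
      exact h0 hX
    · decide
    · decide
    · decide

theorem PW_tri (i : Fin 4) : ∃ Y, ∀ j, j ≠ i → HH.deleteIsolated.Adj (PW j) Y := by
  have key : ∀ i : Fin 4, ∃ y : ZMod 20, ∀ j : Fin 4, j ≠ i →
      y - PP j ∈ ({5, 9, 11, 15} : Finset (ZMod 20)) := by decide +kernel
  obtain ⟨y, hy⟩ := key i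
  exact ⟨⟨Xv y, ⟨Xv (y + 5), adj5 y⟩⟩, fun j hj => adjX _ _ (hy j hj)⟩

/-- parity -/
def parity (v : {v : ZMod 20 // ∃ w, UU.Adj v w}) : Bool := decide (v.1.val % 2 = 1)

theorem parity_adj : ∀ x x' y : ZMod 20, y - x ∈ SS → y - x' ∈ SS →
    decide (x.val % 2 = 1) = decide (x'.val % 2 = 1) := by decide +kernel

theorem nonadj : ∀ a y : ZMod 20, decide (a.val % 2 = 1) ≠ decide (y.val % 2 = 1) →
    y - a ∉ SS → y = a + 1 ∨ y = a - 1 := by decide +kernel

theorem opp_card : ∀ b : Bool,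
    (Finset.univ.filter fun y : ZMod 20 => b ≠ decide (y.val % 2 = 1)).card = 10 := by
  decide +kernel

theorem has_nbr : ∀ v : ZMod 20, ∃ w : ZMod 20, w - v ∈ SS := by decide +kernel

theorem UU_small (A : Finset {v : ZMod 20 // ∃ w, UU.Adj v w}) (hA : A.card ≤ 4)
    (hp : ∀ a ∈ A, ∀ b ∈ A, parity a = parity b) :
    ∃ Y, ∀ a ∈ A, UU.deleteIsolated.Adj a Y := by
  classical
  rcases A.eq_empty_or_nonempty with rfl | ⟨a0, ha0⟩
  · exact ⟨⟨0, has_nbr 0⟩, fun a ha => absurd ha (Finset.notMem_empty a)⟩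
  by_contra hcon
  push Not at hcon
  have hsub : (Finset.univ.filter fun y : ZMod 20 => parity a0 ≠ decide (y.val % 2 = 1)) ⊆
      A.biUnion fun a => ({a.1 + 1, a.1 - 1} : Finset (ZMod 20)) := by
    intro y hy
    have hy' : parity a0 ≠ decide (y.val % 2 = 1) := (Finset.mem_filter.mp hy).2
    obtain ⟨a, ha, hna⟩ := hcon ⟨y, has_nbr y⟩
    rw [Finset.mem_biUnion]
    refine ⟨a, ha, ?_⟩
    have h1 : decide (a.1.val % 2 = 1) ≠ decide (y.val % 2 = 1) := by
      have := hp a0 ha0 a ha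
      rw [this] at hy'
      exact hy'
    rcases nonadj a.1 y h1 hna with h | h
    · rw [h]; simp
    · rw [h]; simp
  have h1 := Finset.card_le_card hsub
  rw [opp_card] at h1
  have h2 : (A.biUnion fun a => ({a.1 + 1, a.1 - 1} : Finset (ZMod 20))).card ≤ A.card * 2 :=
    Finset.card_biUnion_le_card_mul _ _ _ fun a _ => Finset.card_le_two
  omega

/-- `|B(G)|` and `|B(Γ_5(Ω_7(G)))|`: no map is a homotopy left inverse. -/
theorem no_retract_UU (φ : C(HH.BoxSpace, UU.BoxSpace)) (ψ : C(UU.BoxSpace, HH.BoxSpace))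
    (h : (ψ.comp φ).Homotopic (ContinuousMap.id _)) : False := by
  classical
  have : Finite (UU.OmVertex 3) := Subtype.finite
  have : Fintype {v : UU.OmVertex 3 // ∃ w, HH.Adj v w} := Fintype.ofFinite _
  have : Fintype {v : ZMod 20 // ∃ w, UU.Adj v w} := Fintype.ofFinite _
  exact no_retract (H := HH.deleteIsolated) (G := UU.deleteIsolated) (P := PW)
    (fun i j hij => by
      have h1 : Xv (PP i) = Xv (PP j) := congrArg Subtype.val hij
      exact PP_inj (Xv_injective h1))
    PW_tri rho rho_PW rho_miss (par := parity)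
    (fun X X' Y hX hX' => parity_adj X.1 X'.1 Y.1 hX hX') UU_small φ ψ h

end Pool.Agent.Lib.MP_b2c03c_co
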